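import Pool.Agent.Run7.h341.NLen.TE4

/-!
# E3: the Caccioppoli inequality
-/

set_option autoImplicit false
open MeasureTheory Filter Topology Complex Metric
open scoped ContDiff

namespace Run7.h341.NLen

open Pool.Agent.Q73.NL Pool.Agent.Q73.AD

lemma vol_ball10 : volume.real (ball (0 : ℂ) 10) ≤ 315 := by
  rw [Measure.real, Complex.volume_ball]
  have := Real.pi_lt_d2
  simp [ENNReal.toReal_mul]
  nlinarith

/-- cut-off functions: derivatives vanish outside a larger ball -/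
lemma bump_zero {r R R' : ℝ} (hr : 0 < r) (hR : r < R) (hR' : R < R') {z : ℂ} (hz : z ∉ ball (0 : ℂ) R') :
    (⟨r, R, hr, hR⟩ : ContDiffBump (0 : ℂ)) z = 0 ∧ dx (⟨r, R, hr, hR⟩ : ContDiffBump (0 : ℂ)) z = 0 ∧
      dy (⟨r, R, hr, hR⟩ : ContDiffBump (0 : ℂ)) z = 0 ∧
      lap (⟨r, R, hr, hR⟩ : ContDiffBump (0 : ℂ)) z = 0 := by
  have h1 : z ∉ tsupport ((⟨r, R, hr, hR⟩ : ContDiffBump (0 : ℂ)) : ℂ → ℝ) := by
    rw [ContDiffBump.tsupport_eq]
    intro h2
    apply hz
    rw [mem_closedBall] at h2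
    rw [mem_ball]
    have h3 : dist z 0 ≤ R := h2
    linarith
  have h3 : ((⟨r, R, hr, hR⟩ : ContDiffBump (0 : ℂ)) : ℂ → ℝ) =ᶠ[𝓝 z] fun _ => (0 : ℝ) :=
    notMem_tsupport_iff_eventuallyEq.1 h1
  exact ⟨h3.eq_of_nhds, (ev_const h3).1, (ev_const h3).2.1, (ev_const h3).2.2⟩

theorem te3 : E3 := by
  obtain ⟨φ, hφ⟩ : ∃ φ : ContDiffBump (0 : ℂ), φ = ⟨9, 19 / 2, by norm_num, by norm_num⟩ := ⟨_, rfl⟩
  have sφ : ContDiff ℝ ∞ (φ : ℂ → ℝ) := φ.contDiff
  have cφ : HasCompactSupport (φ : ℂ → ℝ) := φ.hasCompactSupport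
  obtain ⟨c, hc0, hc⟩ := bdd_derivs sφ cφ
  refine ⟨(4 * c + 2) * 315, by nlinarith, fun u S hu hb => ?_⟩
  have ha' : ContDiff ℝ ∞ (dx u) := cd_d 1 hu
  have hb' : ContDiff ℝ ∞ (dy u) := cd_d I hu
  have sφφ : ContDiff ℝ ∞ (fun z => φ z * φ z) := sφ.mul sφ
  have s1 : ContDiff ℝ ∞ (fun z => (φ z * φ z) * u z * dx u z) := (sφφ.mul hu).mul ha'
  have s2 : ContDiff ℝ ∞ (fun z => (φ z * φ z) * u z * dy u z) := (sφφ.mul hu).mul hb'
  have c1 : HasCompactSupport (fun z => (φ z * φ z) * u z * dx u z) :=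
    ((cφ.mul_right).mul_right).mul_right
  have c2 : HasCompactSupport (fun z => (φ z * φ z) * u z * dy u z) :=
    ((cφ.mul_right).mul_right).mul_right
  have key : ∀ z, φ z ^ 2 * gsq u z = (dx (fun z => (φ z * φ z) * u z * dx u z) z +
      dy (fun z => (φ z * φ z) * u z * dy u z) z) -
      2 * φ z * u z * (dx φ z * dx u z + dy φ z * dy u z) - φ z ^ 2 * u z * lap u z := by
    intro z
    have e1 : dx (fun z => (φ z * φ z) * u z * dx u z) z = dx (fun z => φ z * φ z) z * u z * dx u z +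
        (φ z * φ z) * dx u z * dx u z + (φ z * φ z) * u z * dx (dx u) z := D_mul3 sφφ hu ha' z 1
    have e2 : dy (fun z => (φ z * φ z) * u z * dy u z) z = dy (fun z => φ z * φ z) z * u z * dy u z +
        (φ z * φ z) * dy u z * dy u z + (φ z * φ z) * u z * dy (dy u) z := D_mul3 sφφ hu hb' z I
    have e3 : dx (fun z => φ z * φ z) z = dx φ z * φ z + φ z * dx φ z := fd_mul 1 (da_of sφ z) (da_of sφ z)
    have e4 : dy (fun z => φ z * φ z) z = dy φ z * φ z + φ z * dy φ z := fd_mul I (da_of sφ z) (da_of sφ z)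
    rw [e1, e2, e3, e4]
    unfold lap gsq
    ring
  obtain ⟨R, hR⟩ : ∃ R : ℂ → ℝ, R = (ball (0 : ℂ) 10).indicator (fun _ => (4 * c + 2) * S ^ 2) := ⟨_, rfl⟩
  have hle : ∀ z, φ z ^ 2 * gsq u z ≤ 2 * (dx (fun z => (φ z * φ z) * u z * dx u z) z +
      dy (fun z => (φ z * φ z) * u z * dy u z) z) + R z := by
    intro z
    have hk := key z
    by_cases hz : z ∈ ball (0 : ℂ) 10
    · rw [hR, Set.indicator_of_mem hz]
      obtain ⟨h1, h2⟩ := hb z hz
      have h3 : u z ^ 2 ≤ S ^ 2 := by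
        rw [← sq_abs]
        exact pow_le_pow_left₀ (abs_nonneg _) h2 2
      have h4 : φ z ^ 2 ≤ 1 := pow_le_one₀ φ.nonneg φ.le_one
      have h5 : -(φ z ^ 2 * u z * lap u z) ≤ S ^ 2 := by
        have h6 : |φ z ^ 2 * u z * lap u z| ≤ 1 * (|u z| * |u z|) := by
          rw [mul_assoc, abs_mul, abs_of_nonneg (sq_nonneg _), abs_mul]
          exact mul_le_mul h4 (mul_le_mul_of_nonneg_left h1 (abs_nonneg _)) (by positivity) zero_le_one
        have h7 := neg_le_of_abs_le h6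
        rw [one_mul, ← pow_two, sq_abs] at h7
        linarith
      have h8 : -(2 * φ z * u z * (dx φ z * dx u z + dy φ z * dy u z)) ≤
          (1 / 2) * (φ z ^ 2 * gsq u z) + 2 * c * S ^ 2 := by
        have h9 := (hc z).1
        have h10 : 2 * u z ^ 2 * (dx φ z ^ 2 + dy φ z ^ 2) ≤ 2 * S ^ 2 * c :=
          mul_le_mul (by linarith) h9 (by positivity) (by positivity)
        have h11 : -(2 * φ z * u z * (dx φ z * dx u z + dy φ z * dy u z)) ≤
            (1 / 2) * (φ z ^ 2 * gsq u z) + 2 * u z ^ 2 * (dx φ z ^ 2 + dy φ z ^ 2) := by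
          unfold gsq
          nlinarith [sq_nonneg (φ z * dx u z + 2 * u z * dx φ z), sq_nonneg (φ z * dy u z + 2 * u z * dy φ z)]
        linarith
      linarith
    · obtain ⟨h1, h2, h3, -⟩ := bump_zero (r := 9) (R := 19 / 2) (by norm_num) (by norm_num)
        (by norm_num) hz
      rw [← hφ] at h1 h2 h3
      rw [h1] at hk ⊢
      rw [h2, h3] at hk
      rw [hR, Set.indicator_of_notMem hz]
      simp only [ne_eq, OfNat.ofNat_ne_zero, not_false_eq_true, zero_pow, zero_mul, mul_zero, sub_zero,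
        add_zero] at hk ⊢
      linarith
  have cφ2 : HasCompactSupport (fun z => φ z ^ 2 * gsq u z) := by
    have : (fun z => φ z ^ 2 * gsq u z) = fun z => φ z * (φ z * gsq u z) := by
      funext z; ring
    rw [this]
    exact cφ.mul_right
  have i1 : Integrable (fun z => φ z ^ 2 * gsq u z) :=
    ((sφ.continuous.pow 2).mul (gsq_cd hu).continuous).integrable_of_hasCompactSupport cφ2
  have i2 : Integrable (fun z => dx (fun z => (φ z * φ z) * u z * dx u z) z +
      dy (fun z => (φ z * φ z) * u z * dy u z) z) :=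
    (int_der (cd1 s1) c1 1).1.add (int_der (cd1 s2) c2 I).1
  have i3 : Integrable R := by
    rw [hR]
    exact (integrable_indicator_iff measurableSet_ball).2 (integrableOn_const measure_ball_lt_top.ne)
  have e0 : ∫ z in ball (0 : ℂ) 9, gsq u z ≤ ∫ z, φ z ^ 2 * gsq u z := by
    have h1 : ∫ z in ball (0 : ℂ) 9, gsq u z = ∫ z in ball (0 : ℂ) 9, φ z ^ 2 * gsq u z := by
      refine setIntegral_congr_fun measurableSet_ball fun z hz => ?_
      have : φ z = 1 := φ.one_of_mem_closedBall (by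
        rw [hφ]
        exact ball_subset_closedBall hz)
      simp only [this, one_mul, one_pow]
    rw [h1]
    exact setIntegral_le_integral i1 (Eventually.of_forall fun z =>
      mul_nonneg (sq_nonneg _) (gsq_nonneg u z))
  have e1 : ∫ z, φ z ^ 2 * gsq u z ≤ ∫ z, (2 * (dx (fun z => (φ z * φ z) * u z * dx u z) z +
      dy (fun z => (φ z * φ z) * u z * dy u z) z) + R z) := integral_mono i1 ((i2.const_mul 2).add i3) hle
  rw [integral_add (i2.const_mul 2) i3, integral_const_mul, int_div s1 s2 c1 c2, mul_zero, zero_add, hR,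
    integral_indicator measurableSet_ball, setIntegral_const, smul_eq_mul] at e1
  have hv : volume.real (ball (0 : ℂ) 10) * ((4 * c + 2) * S ^ 2) ≤ 315 * ((4 * c + 2) * S ^ 2) :=
    mul_le_mul_of_nonneg_right vol_ball10 (by positivity)
  linarith

end Run7.h341.NLen
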