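import Pool.Agent.Run7.h341.NLen.TE1

/-!
# E4: the smoothed length of the nodal set
-/

set_option autoImplicit false
open MeasureTheory Filter Topology Complex Metric
open scoped ContDiff

namespace Run7.h341.NLen

open Pool.Agent.Q73.NL Pool.Agent.Q73.AD

lemma cd1 {f : ℂ → ℝ} (hf : ContDiff ℝ ∞ f) : ContDiff ℝ 1 f := by
  exact_mod_cast contDiff_infty.1 hf 1

/-- the divergence theorem for compactly supported fields -/
lemma int_div {F G : ℂ → ℝ} (hF : ContDiff ℝ ∞ F) (hG : ContDiff ℝ ∞ G) (cF : HasCompactSupport F)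
    (cG : HasCompactSupport G) : ∫ z, (dx F z + dy G z) = 0 := by
  have h1 : ∫ z, dx F z = 0 := (int_der (cd1 hF) cF 1).2
  have h2 : ∫ z, dy G z = 0 := (int_der (cd1 hG) cG I).2
  have i1 : Integrable (dx F) := (cd_d 1 hF).continuous.integrable_of_hasCompactSupport
    (cF.fderiv_apply ℝ 1)
  have i2 : Integrable (dy G) := (cd_d I hG).continuous.integrable_of_hasCompactSupport
    (cG.fderiv_apply ℝ I)
  rw [integral_add i1 i2, h1, h2, add_zero]

lemma D_mul3 {f g h : ℂ → ℝ} (hf : ContDiff ℝ ∞ f) (hg : ContDiff ℝ ∞ g) (hh : ContDiff ℝ ∞ h) (z e : ℂ) :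
    fderiv ℝ (fun z => f z * g z * h z) z e = fderiv ℝ f z e * g z * h z + f z * fderiv ℝ g z e * h z +
      f z * g z * fderiv ℝ h z e := by
  have h1 := fd_mul (z := z) e (da_of (hf.mul hg) z) (da_of hh z)
  rw [h1, fd_mul e (da_of hf z) (da_of hg z)]
  ring

/-- Cauchy-Schwarz in the plane -/
lemma cs2 (a b c d : ℝ) : |a * c + b * d| ≤ √(a ^ 2 + b ^ 2) * √(c ^ 2 + d ^ 2) := by
  rw [← Real.sqrt_mul (by positivity)]
  refine Real.abs_le_sqrt ?_
  nlinarith [sq_nonneg (a * d - b * c)]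

lemma exp_LL {δ : ℝ} {u : ℂ → ℝ} (hδ : 0 < δ) (z : ℂ) : Real.exp (LL δ u z) = √(PP δ u z) := by
  have h := PP_pos hδ u z
  rw [eq_comm, Real.sqrt_eq_iff_mul_self_eq h.le (Real.exp_pos _).le, ← Real.exp_add]
  have : LL δ u z + LL δ u z = Real.log (PP δ u z) := by unfold LL; ring
  rw [this, Real.exp_log h]

lemma vol_ball2 : volume.real (ball (0 : ℂ) 2) ≤ 13 := by
  rw [Measure.real, Complex.volume_ball]
  have := Real.pi_lt_d2
  simp [ENNReal.toReal_mul]
  nlinarith

theorem te4 : E4 := by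
  obtain ⟨φ, hφ⟩ : ∃ φ : ContDiffBump (0 : ℂ), φ = ⟨1, 3 / 2, by norm_num, by norm_num⟩ := ⟨_, rfl⟩
  have sφ : ContDiff ℝ ∞ (φ : ℂ → ℝ) := φ.contDiff
  have cφ : HasCompactSupport (φ : ℂ → ℝ) := φ.hasCompactSupport
  obtain ⟨c, hc0, hc⟩ := bdd_derivs sφ cφ
  refine ⟨26 * (√c + 1) + 2, by nlinarith [Real.sqrt_nonneg c], fun u δ ε hδ hε hu hb => ?_⟩
  have sL := LL_cd hδ hu
  have sE : ContDiff ℝ ∞ (fun z => Real.exp (-LL δ u z)) := sL.neg.exp
  have ha' : ContDiff ℝ ∞ (dx u) := cd_d 1 hu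
  have hb' : ContDiff ℝ ∞ (dy u) := cd_d I hu
  obtain ⟨T, hT⟩ : ∃ T : ℂ → ℝ, T = fun z => Real.arctan (u z / ε) := ⟨_, rfl⟩
  obtain ⟨X, hX⟩ : ∃ X : ℂ → ℝ, X = fun z => dx u z * Real.exp (-LL δ u z) := ⟨_, rfl⟩
  obtain ⟨Y, hY⟩ : ∃ Y : ℂ → ℝ, Y = fun z => dy u z * Real.exp (-LL δ u z) := ⟨_, rfl⟩
  have sT : ContDiff ℝ ∞ T := by rw [hT]; exact (hu.div_const ε).arctan
  have sX : ContDiff ℝ ∞ X := by rw [hX]; exact ha'.mul sE
  have sY : ContDiff ℝ ∞ Y := by rw [hY]; exact hb'.mul sE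
  have dT : ∀ z e, fderiv ℝ T z e = ε / (ε ^ 2 + u z ^ 2) * fderiv ℝ u z e := by
    intro z e
    refine lineD_iff (da_of sT z) ?_
    rw [hT]
    have h := ((lineD e (da_of hu z)).div_const ε).arctan
    refine h.congr_deriv ?_
    simp
    field_simp
  have dE : ∀ z e, fderiv ℝ (fun z => Real.exp (-LL δ u z)) z e =
      -(Real.exp (-LL δ u z) * fderiv ℝ (LL δ u) z e) := by
    intro z e
    refine lineD_iff (da_of sE z) ?_
    have h := (lineD e (da_of sL z)).fun_neg.exp
    refine h.congr_deriv ?_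
    simp
  have hdiv : ∀ z, dx X z + dy Y z = Real.exp (-LL δ u z) * lap u z -
      Real.exp (-LL δ u z) * (dx u z * dx (LL δ u) z + dy u z * dy (LL δ u) z) := by
    intro z
    have e1 : dx X z = dx (dx u) z * Real.exp (-LL δ u z) + dx u z * -(Real.exp (-LL δ u z) *
        dx (LL δ u) z) := by
      rw [hX]
      have h := fd_mul (z := z) 1 (da_of ha' z) (da_of sE z)
      rw [dE] at h
      exact h
    have e2 : dy Y z = dy (dy u) z * Real.exp (-LL δ u z) + dy u z * -(Real.exp (-LL δ u z) *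
        dy (LL δ u) z) := by
      rw [hY]
      have h := fd_mul (z := z) I (da_of hb' z) (da_of sE z)
      rw [dE] at h
      exact h
    rw [e1, e2]
    unfold lap
    ring
  have hXY : ∀ z, √(X z ^ 2 + Y z ^ 2) ≤ 1 := by
    intro z
    rw [Real.sqrt_le_one, hX, hY]
    have h1 := PP_pos hδ u z
    have h2 : Real.exp (-LL δ u z) ^ 2 = (PP δ u z)⁻¹ := by
      rw [Real.exp_neg, exp_LL hδ, inv_pow, Real.sq_sqrt h1.le]
    simp only [mul_pow, h2]
    rw [← add_mul, ← div_eq_mul_inv, div_le_one h1]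
    unfold PP gsq
    nlinarith [sq_nonneg (u z), sq_nonneg δ]
  have hu1 : ∀ z, Real.exp (-LL δ u z) * |u z| ≤ 1 := by
    intro z
    have h1 := PP_pos hδ u z
    rw [Real.exp_neg, exp_LL hδ, inv_mul_le_one₀ (Real.sqrt_pos.2 h1)]
    refine Real.abs_le_sqrt ?_
    unfold PP
    linarith [gsq_nonneg u z, sq_nonneg δ]
  have hdiv2 : ∀ z ∈ ball (0 : ℂ) 10, |dx X z + dy Y z| ≤ 1 + √(gsq (LL δ u) z) := by
    intro z hz
    rw [hdiv]
    refine (abs_sub _ _).trans (add_le_add ?_ ?_)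
    · rw [abs_mul, abs_of_pos (Real.exp_pos _)]
      exact (mul_le_mul_of_nonneg_left (hb z hz) (Real.exp_pos _).le).trans (hu1 z)
    · have e1 : Real.exp (-LL δ u z) * (dx u z * dx (LL δ u) z + dy u z * dy (LL δ u) z) =
          X z * dx (LL δ u) z + Y z * dy (LL δ u) z := by rw [hX, hY]; ring
      rw [e1]
      refine (cs2 _ _ _ _).trans ?_
      exact mul_le_of_le_one_left (Real.sqrt_nonneg _) (hXY z)
  have hTb : ∀ z, |T z| ≤ 2 := by
    intro z
    rw [hT]
    have h1 := Real.arctan_lt_pi_div_two (u z / ε)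
    have h2 := Real.neg_pi_div_two_lt_arctan (u z / ε)
    have h3 := Real.pi_lt_d2
    rw [abs_le]
    constructor <;> simp only <;> linarith
  obtain ⟨G, hG⟩ : ∃ G : ℂ → ℝ, G = fun z => ε / (ε ^ 2 + u z ^ 2) * (gsq u z / √(PP δ u z)) := ⟨_, rfl⟩
  have hG0 : ∀ z, 0 ≤ G z := by
    intro z
    rw [hG]
    have := gsq_nonneg u z
    positivity
  have hGc : Continuous G := by
    rw [hG]
    have h0 : ∀ z, ε ^ 2 + u z ^ 2 ≠ 0 := fun z => by positivity
    refine (continuous_const.div (continuous_const.add (hu.continuous.pow 2)) h0).mul ?_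
    exact (gsq_cd hu).continuous.div (PP_cd δ hu).continuous.sqrt fun z =>
      (Real.sqrt_pos.2 (PP_pos hδ u z)).ne'
  have s1 : ContDiff ℝ ∞ (fun z => φ z * T z * X z) := (sφ.mul sT).mul sX
  have s2 : ContDiff ℝ ∞ (fun z => φ z * T z * Y z) := (sφ.mul sT).mul sY
  have c1 : HasCompactSupport (fun z => φ z * T z * X z) := (cφ.mul_right).mul_right
  have c2 : HasCompactSupport (fun z => φ z * T z * Y z) := (cφ.mul_right).mul_right
  have key : ∀ z, φ z * G z = (dx (fun z => φ z * T z * X z) z + dy (fun z => φ z * T z * Y z) z) -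
      T z * (dx φ z * X z + dy φ z * Y z) - φ z * T z * (dx X z + dy Y z) := by
    intro z
    have e1 : dx (fun z => φ z * T z * X z) z = dx φ z * T z * X z + φ z * dx T z * X z +
        φ z * T z * dx X z := D_mul3 sφ sT sX z 1
    have e2 : dy (fun z => φ z * T z * Y z) z = dy φ z * T z * Y z + φ z * dy T z * Y z +
        φ z * T z * dy Y z := D_mul3 sφ sT sY z I
    have e3 : dx T z = ε / (ε ^ 2 + u z ^ 2) * dx u z := dT z 1
    have e4 : dy T z = ε / (ε ^ 2 + u z ^ 2) * dy u z := dT z I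
    have e5 : G z = dx T z * X z + dy T z * Y z := by
      rw [e3, e4, hG, hX, hY]
      simp only [Real.exp_neg, exp_LL hδ]
      unfold gsq
      ring
    rw [e1, e2, e5]
    ring
  have hsupp : ∀ z, z ∉ ball (0 : ℂ) 2 → φ z = 0 ∧ dx φ z = 0 ∧ dy φ z = 0 := by
    intro z hz
    have h1 : z ∉ tsupport (φ : ℂ → ℝ) := by
      rw [φ.tsupport_eq]
      intro h2
      apply hz
      rw [hφ] at h2
      rw [mem_closedBall] at h2
      rw [mem_ball]
      have h3 : dist z 0 ≤ 3 / 2 := h2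
      linarith
    have h2 := notMem_tsupport_iff_eventuallyEq.1 h1
    have h3 : (φ : ℂ → ℝ) =ᶠ[𝓝 z] fun _ => (0 : ℝ) := h2
    exact ⟨h3.eq_of_nhds, (ev_const h3).1, (ev_const h3).2.1⟩
  obtain ⟨R, hR⟩ : ∃ R : ℂ → ℝ, R = (ball (0 : ℂ) 2).indicator
      (fun z => 2 * (√c + 1) + 2 * √(gsq (LL δ u) z)) := ⟨_, rfl⟩
  have hle : ∀ z, φ z * G z ≤ (dx (fun z => φ z * T z * X z) z + dy (fun z => φ z * T z * Y z) z) + R z := by
    intro z
    rw [key z]
    by_cases hz : z ∈ ball (0 : ℂ) 2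
    · rw [hR, Set.indicator_of_mem hz]
      have h1 : |dx φ z * X z + dy φ z * Y z| ≤ √c := by
        refine (cs2 _ _ _ _).trans ?_
        refine (mul_le_of_le_one_right (Real.sqrt_nonneg _) (hXY z)).trans ?_
        exact Real.sqrt_le_sqrt (hc z).1
      have h2 := hdiv2 z (ball_subset_ball (by norm_num) hz)
      have h3 : |T z * (dx φ z * X z + dy φ z * Y z)| ≤ 2 * √c := by
        rw [abs_mul]
        exact mul_le_mul (hTb z) h1 (abs_nonneg _) (by norm_num)
      have h4 : |φ z * T z * (dx X z + dy Y z)| ≤ 2 * (1 + √(gsq (LL δ u) z)) := by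
        rw [abs_mul, abs_mul, abs_of_nonneg φ.nonneg]
        refine mul_le_mul ?_ h2 (abs_nonneg _) (by norm_num)
        have := mul_le_mul (φ.le_one (x := z)) (hTb z) (abs_nonneg _) zero_le_one
        linarith
      have h5 := neg_le_of_abs_le h3
      have h6 := neg_le_of_abs_le h4
      linarith
    · obtain ⟨h1, h2, h3⟩ := hsupp z hz
      rw [hR, Set.indicator_of_notMem hz, h1, h2, h3]
      simp
  have i1 : Integrable (fun z => φ z * G z) :=
    (sφ.continuous.mul hGc).integrable_of_hasCompactSupport cφ.mul_right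
  have i2 : Integrable (fun z => dx (fun z => φ z * T z * X z) z + dy (fun z => φ z * T z * Y z) z) :=
    (int_der (cd1 s1) c1 1).1.add (int_der (cd1 s2) c2 I).1
  have hgc : Continuous (fun z => √(gsq (LL δ u) z)) := (gsq_cd sL).continuous.sqrt
  have i3' : IntegrableOn (fun z => 2 * (√c + 1) + 2 * √(gsq (LL δ u) z)) (ball (0 : ℂ) 2) :=
    ((continuous_const.add (continuous_const.mul hgc)).continuousOn.integrableOn_compact
      (isCompact_closedBall (0 : ℂ) 2)).mono_set ball_subset_closedBall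
  have i3 : Integrable R := by rw [hR]; exact (integrable_indicator_iff measurableSet_ball).2 i3'
  have i4 : IntegrableOn (fun z => √(gsq (LL δ u) z)) (ball (0 : ℂ) 2) :=
    (hgc.continuousOn.integrableOn_compact (isCompact_closedBall (0 : ℂ) 2)).mono_set
      ball_subset_closedBall
  have e0 : ∫ z in ball (0 : ℂ) 1, G z ≤ ∫ z, φ z * G z := by
    have h1 : ∫ z in ball (0 : ℂ) 1, G z = ∫ z in ball (0 : ℂ) 1, φ z * G z := by
      refine setIntegral_congr_fun measurableSet_ball fun z hz => ?_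
      have : φ z = 1 := φ.one_of_mem_closedBall (by
        rw [hφ]
        exact ball_subset_closedBall hz)
      simp only [this, one_mul]
    rw [h1]
    exact setIntegral_le_integral i1 (Eventually.of_forall fun z => mul_nonneg φ.nonneg (hG0 z))
  have e1 : ∫ z, φ z * G z ≤ ∫ z, ((dx (fun z => φ z * T z * X z) z +
      dy (fun z => φ z * T z * Y z) z) + R z) := integral_mono i1 (i2.add i3) hle
  rw [integral_add i2 i3, int_div s1 s2 c1 c2, zero_add, hR, integral_indicator measurableSet_ball,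
    integral_add (by
      refine integrableOn_const (by
        exact measure_ball_lt_top.ne)) (i4.const_mul 2), setIntegral_const, integral_const_mul,
    smul_eq_mul] at e1
  have hI : 0 ≤ ∫ z in ball (0 : ℂ) 2, √(gsq (LL δ u) z) :=
    setIntegral_nonneg measurableSet_ball fun z _ => Real.sqrt_nonneg _
  have hv : volume.real (ball (0 : ℂ) 2) * (2 * (√c + 1)) ≤ 13 * (2 * (√c + 1)) :=
    mul_le_mul_of_nonneg_right vol_ball2 (by positivity)
  have hsc := Real.sqrt_nonneg c
  rw [hG] at e0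
  refine e0.trans ?_
  rw [hG] at e1
  refine e1.trans ?_
  nlinarith

end Run7.h341.NLen
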