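import Pool.Agent.Run7.h341.NLen.Iface
import Pool.Agent.Q73.AD.TA4

/-!
# E1: the identity for the logarithm of `|∇u|² + u² + δ²`
-/

set_option autoImplicit false
open MeasureTheory Filter Topology Complex Metric
open scoped ContDiff

namespace Run7.h341.NLen

open Pool.Agent.Q73.NL Pool.Agent.Q73.AD

lemma da_of {f : ℂ → ℝ} (hf : ContDiff ℝ ∞ f) (z : ℂ) : DifferentiableAt ℝ f z :=
  (hf.differentiable (by simp)) z

lemma D_quot {f g : ℂ → ℝ} {z : ℂ} (e : ℂ) (hf : DifferentiableAt ℝ f z) (hg : DifferentiableAt ℝ g z)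
    (h0 : g z ≠ 0) : fderiv ℝ (fun z => f z / g z) z e =
      (fderiv ℝ f z e * g z - f z * fderiv ℝ g z e) / g z ^ 2 := by
  have h1 := lineD e hf
  have h2 := lineD e hg
  have h3 := h1.fun_div h2 (by simpa using h0)
  have h4 : DifferentiableAt ℝ (fun z => f z / g z) z := by
    have := hf.fun_mul (hg.fun_inv h0)
    simpa only [div_eq_mul_inv] using this
  refine lineD_iff h4 ?_
  simpa using h3

lemma D_cross {a b s t : ℂ → ℝ} {z : ℂ} (e : ℂ) (ha : DifferentiableAt ℝ a z)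
    (hb : DifferentiableAt ℝ b z) (hs : DifferentiableAt ℝ s z) (ht : DifferentiableAt ℝ t z) :
    fderiv ℝ (fun z => b z * s z - t z * a z) z e =
      fderiv ℝ b z e * s z + b z * fderiv ℝ s z e - (fderiv ℝ t z e * a z + t z * fderiv ℝ a z e) := by
  refine lineD_iff ((hb.fun_mul hs).fun_sub (ht.fun_mul ha)) ?_
  have := ((lineD e hb).fun_mul (lineD e hs)).fun_sub ((lineD e ht).fun_mul (lineD e ha))
  simpa using this

section

variable {δ : ℝ} {u : ℂ → ℝ}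

lemma gsq_nonneg (u : ℂ → ℝ) (z : ℂ) : 0 ≤ gsq u z := by
  unfold gsq; positivity

lemma gsq_cd (hu : ContDiff ℝ ∞ u) : ContDiff ℝ ∞ (gsq u) :=
  ((cd_d 1 hu).pow 2).add ((cd_d I hu).pow 2)

lemma PP_pos (hδ : 0 < δ) (u : ℂ → ℝ) (z : ℂ) : 0 < PP δ u z := by
  have := gsq_nonneg u z
  unfold PP; positivity

lemma PP_cd (δ : ℝ) (hu : ContDiff ℝ ∞ u) : ContDiff ℝ ∞ (PP δ u) :=
  ((gsq_cd hu).add (hu.pow 2)).add contDiff_const

lemma PP_D (δ : ℝ) (hu : ContDiff ℝ ∞ u) (z e : ℂ) : fderiv ℝ (PP δ u) z e =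
    2 * (dx u z * fderiv ℝ (dx u) z e + dy u z * fderiv ℝ (dy u) z e + u z * fderiv ℝ u z e) := by
  have ha : ContDiff ℝ ∞ (dx u) := cd_d 1 hu
  have hb : ContDiff ℝ ∞ (dy u) := cd_d I hu
  refine lineD_iff (da_of (PP_cd δ hu) z) ?_
  have h := ((((lineD e (da_of ha z)).fun_pow 2).fun_add ((lineD e (da_of hb z)).fun_pow 2)).fun_add
    ((lineD e (da_of hu z)).fun_pow 2)).add_const (δ ^ 2)
  refine h.congr_deriv ?_
  simp
  ring

lemma LL_cd (hδ : 0 < δ) (hu : ContDiff ℝ ∞ u) : ContDiff ℝ ∞ (LL δ u) :=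
  contDiff_const.mul ((PP_cd δ hu).log fun z => (PP_pos hδ u z).ne')

lemma LL_D (hδ : 0 < δ) (hu : ContDiff ℝ ∞ u) (z e : ℂ) : fderiv ℝ (LL δ u) z e =
    (dx u z * fderiv ℝ (dx u) z e + dy u z * fderiv ℝ (dy u) z e + u z * fderiv ℝ u z e) / PP δ u z := by
  have hP := PP_pos hδ u z
  refine lineD_iff (da_of (LL_cd hδ hu) z) ?_
  have h := ((lineD e (da_of (PP_cd δ hu) z)).log (by simpa using hP.ne')).const_mul (1 / 2)
  refine h.congr_deriv ?_
  rw [PP_D δ hu]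
  simp
  field_simp

lemma alg_E1 {a b u r s t d P : ℝ} (hP : P = a ^ 2 + b ^ 2 + u ^ 2 + d ^ 2) (h : |r + t| ≤ |u|) :
    -P ^ 2 ≤ 2 * (s ^ 2 - r * t) * P - 2 * ((b * s - t * a) * (a * r + b * s + u * a) +
      (a * s - r * b) * (a * s + b * t + u * b)) := by
  have h2 : (r + t) ^ 2 ≤ u ^ 2 := by
    have := sq_le_sq.2 h
    exact this
  have e : 2 * (s ^ 2 - r * t) * P - 2 * ((b * s - t * a) * (a * r + b * s + u * a) +
      (a * s - r * b) * (a * s + b * t + u * b)) =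
      2 * (s ^ 2 - r * t) * (u ^ 2 + d ^ 2) + 2 * u * (t * a ^ 2 + r * b ^ 2 - 2 * a * b * s) := by
    rw [hP]; ring
  rw [e]
  -- `H² = r² + t² + 2 s²`
  have h3 : 2 * (s ^ 2 - r * t) ≥ (r ^ 2 + t ^ 2 + 2 * s ^ 2) - u ^ 2 := by nlinarith
  have h4 : (t * a ^ 2 + r * b ^ 2 - 2 * a * b * s) ^ 2 ≤ (r ^ 2 + t ^ 2 + 2 * s ^ 2) * (a ^ 2 + b ^ 2) ^ 2 := by
    nlinarith [sq_nonneg (t * b ^ 2 - r * a ^ 2), sq_nonneg (t * a * b * 2 + s * a ^ 2 * 2), sq_nonneg (a * b * t + a ^ 2 * s),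
      sq_nonneg (a * b * r + b ^ 2 * s), sq_nonneg (a ^ 2 * s + a * b * t), sq_nonneg (a * b), sq_nonneg (s * a * b), sq_nonneg (s * a ^ 2), sq_nonneg (s * b ^ 2)]
  have h5 : 2 * u * (t * a ^ 2 + r * b ^ 2 - 2 * a * b * s) ≥
      -((r ^ 2 + t ^ 2 + 2 * s ^ 2) * u ^ 2 + (a ^ 2 + b ^ 2) ^ 2) := by
    obtain ⟨H, hH⟩ : ∃ H : ℝ, H = √(r ^ 2 + t ^ 2 + 2 * s ^ 2) := ⟨_, rfl⟩
    have hH0 : 0 ≤ H := by rw [hH]; positivity
    have hH2 : H ^ 2 = r ^ 2 + t ^ 2 + 2 * s ^ 2 := by rw [hH]; exact Real.sq_sqrt (by positivity)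
    rw [← hH2] at h4 ⊢
    have h9 : |t * a ^ 2 + r * b ^ 2 - 2 * a * b * s| ≤ H * (a ^ 2 + b ^ 2) := by
      refine abs_le_of_sq_le_sq ?_ (by positivity)
      rw [mul_pow]
      exact h4
    have h10 : |u * (t * a ^ 2 + r * b ^ 2 - 2 * a * b * s)| ≤ |u| * (H * (a ^ 2 + b ^ 2)) := by
      rw [abs_mul]
      exact mul_le_mul_of_nonneg_left h9 (abs_nonneg u)
    have h11 := neg_le_of_abs_le h10
    have h12 : 2 * (|u| * (H * (a ^ 2 + b ^ 2))) ≤ H ^ 2 * u ^ 2 + (a ^ 2 + b ^ 2) ^ 2 := by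
      have := two_mul_le_add_sq (|u| * H) (a ^ 2 + b ^ 2)
      rw [mul_pow, sq_abs] at this
      nlinarith
    linarith
  have h6 : 2 * (s ^ 2 - r * t) * (u ^ 2 + d ^ 2) ≥ ((r ^ 2 + t ^ 2 + 2 * s ^ 2) - u ^ 2) * (u ^ 2 + d ^ 2) :=
    mul_le_mul_of_nonneg_right h3 (by positivity)
  have h7 : 0 ≤ (r ^ 2 + t ^ 2 + 2 * s ^ 2) * d ^ 2 := by positivity
  have h8 : u ^ 2 * (u ^ 2 + d ^ 2) + (a ^ 2 + b ^ 2) ^ 2 ≤ P ^ 2 := by
    rw [hP]
    nlinarith [sq_nonneg a, sq_nonneg b, sq_nonneg u, sq_nonneg d, mul_nonneg (add_nonneg (sq_nonneg a) (sq_nonneg b)) (add_nonneg (sq_nonneg u) (sq_nonneg d)), mul_nonneg (sq_nonneg u) (sq_nonneg d), sq_nonneg (d ^ 2)]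
  nlinarith

lemma fd_add' {f g : ℂ → ℝ} {z : ℂ} (e : ℂ) (hf : DifferentiableAt ℝ f z) (hg : DifferentiableAt ℝ g z) :
    fderiv ℝ (fun z => f z + g z) z e = fderiv ℝ f z e + fderiv ℝ g z e := by
  rw [fderiv_fun_add hf hg]; rfl

end

theorem te1 : E1 := by
  intro δ u hδ hu hb
  have ha' : ContDiff ℝ ∞ (dx u) := cd_d 1 hu
  have hb' : ContDiff ℝ ∞ (dy u) := cd_d I hu
  have hr : ContDiff ℝ ∞ (dx (dx u)) := cd_d 1 ha'
  have hs : ContDiff ℝ ∞ (dx (dy u)) := cd_d 1 hb'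
  have ht : ContDiff ℝ ∞ (dy (dy u)) := cd_d I hb'
  have hl : ContDiff ℝ ∞ (lap u) := hr.add ht
  have hP := PP_cd δ hu
  have hP0 := PP_pos hδ u
  have es : dy (dx u) = dx (dy u) := by funext z; exact (mixed hu z).symm
  have er : dy (dx (dx u)) = dx (dx (dy u)) := by
    have h1 : dx (dy (dx u)) = dy (dx (dx u)) := by funext z; exact mixed ha' z
    rw [← h1, es]
  have et : dx (dy (dy u)) = dy (dx (dy u)) := by funext z; exact mixed hb' z
  obtain ⟨A, hA⟩ : ∃ A : ℂ → ℝ, A = fun z => (lap u z + u z) * dx u z / PP δ u z := ⟨_, rfl⟩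
  obtain ⟨B, hB⟩ : ∃ B : ℂ → ℝ, B = fun z => (lap u z + u z) * dy u z / PP δ u z := ⟨_, rfl⟩
  obtain ⟨W, hW⟩ : ∃ W : ℂ → ℝ, W = fun z => (dy u z * dx (dy u) z - dy (dy u) z * dx u z) / PP δ u z :=
    ⟨_, rfl⟩
  obtain ⟨Y, hY⟩ : ∃ Y : ℂ → ℝ, Y = fun z => (dx u z * dx (dy u) z - dx (dx u) z * dy u z) / PP δ u z :=
    ⟨_, rfl⟩
  have sA : ContDiff ℝ ∞ A := by rw [hA]; exact ((hl.add hu).mul ha').div hP fun z => (hP0 z).ne'
  have sB : ContDiff ℝ ∞ B := by rw [hB]; exact ((hl.add hu).mul hb').div hP fun z => (hP0 z).ne'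
  have sW : ContDiff ℝ ∞ W := by
    rw [hW]; exact ((hb'.mul hs).sub (ht.mul ha')).div hP fun z => (hP0 z).ne'
  have sY : ContDiff ℝ ∞ Y := by
    rw [hY]; exact ((ha'.mul hs).sub (hr.mul hb')).div hP fun z => (hP0 z).ne'
  have hlap : ∀ z, lap u z = dx (dx u) z + dy (dy u) z := fun z => rfl
  have h1 : dx (LL δ u) = fun z => A z + W z := by
    funext z
    have h := LL_D hδ hu z 1
    change dx (LL δ u) z = (dx u z * dx (dx u) z + dy u z * dx (dy u) z + u z * dx u z) / PP δ u z at h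
    rw [h, hA, hW]
    simp only [hlap]
    field_simp
    ring
  have h2 : dy (LL δ u) = fun z => B z + Y z := by
    funext z
    have h := LL_D hδ hu z I
    change dy (LL δ u) z = (dx u z * dy (dx u) z + dy u z * dy (dy u) z + u z * dy u z) / PP δ u z at h
    rw [h, hB, hY, es]
    simp only [hlap]
    field_simp
    ring
  refine ⟨A, B, fun z => dx W z + dy Y z + 1, LL_cd hδ hu, sA, sB, ?_, fun z _ => ?_, fun z hz => ?_,
    fun z hz => ?_⟩
  · exact ((cd_d 1 sW).continuous.add (cd_d I sY).continuous).add continuous_const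
  · unfold lap
    rw [h1, h2]
    have e1 : dx (fun z => A z + W z) z = dx A z + dx W z := fd_add' 1 (da_of sA z) (da_of sW z)
    have e2 : dy (fun z => B z + Y z) z = dy B z + dy Y z := fd_add' I (da_of sB z) (da_of sY z)
    rw [e1, e2]
    ring
  · have n1 : ContDiff ℝ ∞ (fun z => dy u z * dx (dy u) z - dy (dy u) z * dx u z) :=
      (hb'.mul hs).sub (ht.mul ha')
    have n2 : ContDiff ℝ ∞ (fun z => dx u z * dx (dy u) z - dx (dx u) z * dy u z) :=
      (ha'.mul hs).sub (hr.mul hb')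
    have e1 := D_quot 1 (da_of n1 z) (da_of hP z) (hP0 z).ne'
    have e2 := D_quot I (da_of n2 z) (da_of hP z) (hP0 z).ne'
    rw [← hW] at e1
    rw [← hY] at e2
    change dx W z = _ at e1
    change dy Y z = _ at e2
    have e3 := D_cross (z := z) 1 (da_of ha' z) (da_of hb' z) (da_of hs z) (da_of ht z)
    have e4 := D_cross (z := z) I (da_of hb' z) (da_of ha' z) (da_of hs z) (da_of hr z)
    have e5 := PP_D δ hu z 1
    have e6 := PP_D δ hu z I
    change _ = dx (dy u) z * dx (dy u) z + dy u z * dx (dx (dy u)) z -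
      (dx (dy (dy u)) z * dx u z + dy (dy u) z * dx (dx u) z) at e3
    change _ = dy (dx u) z * dx (dy u) z + dx u z * dy (dx (dy u)) z -
      (dy (dx (dx u)) z * dy u z + dx (dx u) z * dy (dy u) z) at e4
    change _ = 2 * (dx u z * dx (dx u) z + dy u z * dx (dy u) z + u z * dx u z) at e5
    change _ = 2 * (dx u z * dy (dx u) z + dy u z * dy (dy u) z + u z * dy u z) at e6
    rw [e3, e5] at e1
    rw [e4, e6] at e2
    rw [et] at e1
    rw [es, er] at e2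
    have hp := hP0 z
    have key := alg_E1 (a := dx u z) (b := dy u z) (u := u z) (r := dx (dx u) z) (s := dx (dy u) z)
      (t := dy (dy u) z) (d := δ) (P := PP δ u z) rfl (hb z hz)
    have hsum : dx W z + dy Y z = (2 * (dx (dy u) z ^ 2 - dx (dx u) z * dy (dy u) z) * PP δ u z -
        2 * ((dy u z * dx (dy u) z - dy (dy u) z * dx u z) *
        (dx u z * dx (dx u) z + dy u z * dx (dy u) z + u z * dx u z) +
        (dx u z * dx (dy u) z - dx (dx u) z * dy u z) *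
        (dx u z * dx (dy u) z + dy u z * dy (dy u) z + u z * dy u z))) / PP δ u z ^ 2 := by
      rw [e1, e2, ← add_div]
      congr 1
      ring
    have hge : -1 ≤ dx W z + dy Y z := by
      rw [hsum, le_div_iff₀ (by positivity)]
      linarith
    linarith
  · rw [hA, hB]
    have hp := hP0 z
    have h3 := hb z hz
    have h4 : |lap u z + u z| ≤ 2 * |u z| := (abs_add_le _ _).trans (by linarith)
    have h5 : (lap u z + u z) ^ 2 ≤ 4 * u z ^ 2 := by
      have := sq_le_sq' (by linarith [abs_nonneg (u z), neg_le_of_abs_le h4]) (le_of_abs_le h4)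
      rw [mul_pow, sq_abs] at this
      linarith
    have e : ((lap u z + u z) * dx u z / PP δ u z) ^ 2 + ((lap u z + u z) * dy u z / PP δ u z) ^ 2 =
        (lap u z + u z) ^ 2 * gsq u z / PP δ u z ^ 2 := by
      unfold gsq
      field_simp
    simp only
    rw [e, div_le_one (by positivity)]
    have hg := gsq_nonneg u z
    have h6 : (lap u z + u z) ^ 2 * gsq u z ≤ 4 * u z ^ 2 * gsq u z :=
      mul_le_mul_of_nonneg_right h5 hg
    have h7 : 4 * u z ^ 2 * gsq u z ≤ (gsq u z + u z ^ 2) ^ 2 := by nlinarith [sq_nonneg (gsq u z - u z ^ 2)]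
    have h8 : (gsq u z + u z ^ 2) ^ 2 ≤ PP δ u z ^ 2 := by
      refine pow_le_pow_left₀ (by positivity) ?_ 2
      unfold PP
      linarith [sq_nonneg δ]
    linarith

end Run7.h341.NLen
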