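import Pool.Agent.Run7.h341.NLen.TE2e

/-!
# E2: the integral of the gradient of `L`
-/

set_option autoImplicit false
open MeasureTheory Filter Topology Complex Metric
open scoped ContDiff

namespace Run7.h341.NLen

open Pool.Agent.Q73.NL Pool.Agent.Q73.AD Pool.Agent.Helper676.CSLog PBx

/-- the antiderivative of `arctan (t / M)` -/
noncomputable def HH (M t : ℝ) : ℝ := t * Real.arctan (t / M) - (M / 2) * Real.log (1 + (t / M) ^ 2)

lemma HH_der {M : ℝ} (hM : 0 < M) (t : ℝ) : HasDerivAt (HH M) (Real.arctan (t / M)) t := by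
  have h1 : HasDerivAt (fun t : ℝ => t / M) (1 / M) t := (hasDerivAt_id t).div_const M
  have h2 : HasDerivAt (fun t : ℝ => 1 + (t / M) ^ 2) (2 * (t / M) * (1 / M)) t := by
    have := (h1.fun_pow 2).const_add 1
    refine this.congr_deriv ?_
    simp
  have h3 := h2.log (by positivity)
  have h4 := ((hasDerivAt_id t).mul h1.arctan).sub (h3.const_mul (M / 2))
  refine h4.congr_deriv ?_
  have h5 : 1 + (t / M) ^ 2 ≠ 0 := by positivity
  simp only [id]
  field_simp
  ring

lemma HH_abs {M : ℝ} (hM : 0 < M) (t : ℝ) : |HH M t| ≤ 2 * |t| := by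
  have h1 : 0 ≤ t * Real.arctan (t / M) := by
    rcases le_total 0 t with h | h
    · exact mul_nonneg h (Real.arctan_nonneg.2 (by positivity))
    · have h3 := Real.arctan_strictMono.monotone (div_nonpos_of_nonpos_of_nonneg h hM.le)
      rw [Real.arctan_zero] at h3
      exact mul_nonneg_of_nonpos_of_nonpos h h3
  have h2 : t * Real.arctan (t / M) ≤ 2 * |t| := by
    have h3 : |Real.arctan (t / M)| ≤ 2 := by
      have h1 := Real.arctan_lt_pi_div_two (t / M)
      have h2 := Real.neg_pi_div_two_lt_arctan (t / M)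
      have h3 := Real.pi_lt_d2
      rw [abs_le]
      constructor <;> linarith
    refine (le_abs_self _).trans ?_
    rw [abs_mul, mul_comm]
    exact mul_le_mul_of_nonneg_right h3 (abs_nonneg _)
  have h4 : 0 ≤ Real.log (1 + (t / M) ^ 2) := Real.log_nonneg (by nlinarith [sq_nonneg (t / M)])
  have h5 : Real.log (1 + (t / M) ^ 2) ≤ 2 * |t / M| := by
    have h6 : 1 + (t / M) ^ 2 ≤ (1 + |t / M|) ^ 2 := by
      rw [← sq_abs]
      nlinarith [abs_nonneg (t / M)]
    have h7 : 0 < 1 + |t / M| := by positivity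
    refine (Real.log_le_log (by positivity) h6).trans ?_
    rw [Real.log_pow]
    have := Real.log_le_sub_one_of_pos h7
    push_cast
    linarith
  have h6 : (M / 2) * (2 * |t / M|) = |t| := by
    rw [abs_div, abs_of_pos hM]
    field_simp
  have h7 : (M / 2) * Real.log (1 + (t / M) ^ 2) ≤ |t| := by
    rw [← h6]
    exact mul_le_mul_of_nonneg_left h5 (by positivity)
  have h8 : 0 ≤ (M / 2) * Real.log (1 + (t / M) ^ 2) := by positivity
  unfold HH
  rw [abs_le]
  constructor <;> linarith [abs_nonneg t]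

variable {L A B μ : ℂ → ℝ}

lemma Sys.energy (h : Sys L A B μ) {χ φ : ℂ → ℝ} {k c M m : ℝ} (hχ : Cut χ k)
    (hM : 1 ≤ M) (hm : ∫ y, χ y * μ y ≤ m) (sφ : ContDiff ℝ ∞ φ) (cφ : HasCompactSupport φ)
    (φ0 : ∀ y, 0 ≤ φ y) (φ1 : ∀ y, φ y ≤ 1) (φ2 : ∀ y ∈ ball (0 : ℂ) 2, φ y = 1)
    (φout : ∀ y, y ∉ ball (0 : ℂ) 3 → φ y = 0 ∧ dx φ y = 0 ∧ dy φ y = 0 ∧ lap φ y = 0)
    (hc : ∀ z, dx φ z ^ 2 + dy φ z ^ 2 ≤ c ∧ lap φ z ^ 2 ≤ c) :
    ∫ z in ball (0 : ℂ) 2, √(gsq L z) ≤ 2 * √c * (∫ z in ball (0 : ℂ) 3, |L z|) +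
      29 * (2 * √c + 5 / 2) + 2 * m + 29 * M + (∫ z in ball (0 : ℂ) 3, L z ^ 2) / M := by
  have hM0 : 0 < M := by linarith
  have sL := h.smoothL
  have hc' := Real.sqrt_nonneg c
  obtain ⟨T, hT⟩ : ∃ T : ℂ → ℝ, T = fun z => Real.arctan (L z / M) := ⟨_, rfl⟩
  obtain ⟨g, hg⟩ : ∃ g : ℂ → ℝ, g = fun z => M / (M ^ 2 + L z ^ 2) := ⟨_, rfl⟩
  obtain ⟨v, hv⟩ : ∃ v : ℂ → ℝ, v = fun z => HH M (L z) := ⟨_, rfl⟩
  have sT : ContDiff ℝ ∞ T := by rw [hT]; exact (sL.div_const M).arctan
  have sv : ContDiff ℝ ∞ v := by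
    rw [hv]
    unfold HH
    refine (sL.mul (sL.div_const M).arctan).sub (contDiff_const.mul (ContDiff.log ?_ fun z => ?_))
    · exact contDiff_const.add ((sL.div_const M).pow 2)
    · positivity
  have dT : ∀ z e, fderiv ℝ T z e = g z * fderiv ℝ L z e := by
    intro z e
    refine lineD_iff (da_of sT z) ?_
    rw [hT, hg]
    have h1 := ((lineD e (da_of sL z)).div_const M).arctan
    refine h1.congr_deriv ?_
    simp
    field_simp
  have dv : ∀ z e, fderiv ℝ v z e = T z * fderiv ℝ L z e := by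
    intro z e
    refine lineD_iff (da_of sv z) ?_
    rw [hv, hT]
    have h1 := (HH_der hM0 (L (z + (0 : ℝ) • e))).comp (0 : ℝ) (lineD e (da_of sL z))
    refine h1.congr_deriv ?_
    simp
  have hlapv : ∀ z, lap v z = T z * lap L z + g z * gsq L z := by
    intro z
    have e1 : dx v = fun z => T z * dx L z := funext fun z => dv z 1
    have e2 : dy v = fun z => T z * dy L z := funext fun z => dv z I
    have e3 : dx (fun z => T z * dx L z) z = dx T z * dx L z + T z * dx (dx L) z :=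
      fd_mul 1 (da_of sT z) (da_of (cd_d 1 sL) z)
    have e4 : dy (fun z => T z * dy L z) z = dy T z * dy L z + T z * dy (dy L) z :=
      fd_mul I (da_of sT z) (da_of (cd_d I sL) z)
    have e5 : dx T z = g z * dx L z := dT z 1
    have e6 : dy T z = g z * dy L z := dT z I
    unfold lap
    rw [e1, e2, e3, e4, e5, e6]
    unfold gsq
    ring
  have hTb : ∀ z, |T z| ≤ 2 := by
    intro z
    rw [hT]
    have h1 := Real.arctan_lt_pi_div_two (L z / M)
    have h2 := Real.neg_pi_div_two_lt_arctan (L z / M)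
    have h3 := Real.pi_lt_d2
    rw [abs_le]
    constructor <;> simp only <;> linarith
  have hg0 : ∀ z, 0 < g z := by intro z; rw [hg]; positivity
  have hg1 : ∀ z, g z ≤ 1 := by
    intro z
    rw [hg]
    simp only
    rw [div_le_one (by positivity)]
    nlinarith [sq_nonneg (L z)]
  have hginv : ∀ z, (g z)⁻¹ = M + L z ^ 2 / M := by
    intro z
    rw [hg]
    field_simp
  -- fields
  have s1 : ContDiff ℝ ∞ (fun z => φ z * T z * A z) := (sφ.mul sT).mul h.smoothA
  have s2 : ContDiff ℝ ∞ (fun z => φ z * T z * B z) := (sφ.mul sT).mul h.smoothB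
  have c1 : HasCompactSupport (fun z => φ z * T z * A z) := (cφ.mul_right).mul_right
  have c2 : HasCompactSupport (fun z => φ z * T z * B z) := (cφ.mul_right).mul_right
  obtain ⟨R, hR⟩ : ∃ R : ℂ → ℝ, R = (ball (0 : ℂ) 3).indicator (fun _ => 2 * √c + 5 / 2) := ⟨_, rfl⟩
  have hχμ : ∀ z, 0 ≤ χ z * μ z := by
    intro y
    by_cases hy : y ∈ ball (0 : ℂ) 5
    · exact mul_nonneg (hχ.nonneg y) (h.nonneg y (ball_subset_ball (by norm_num) hy))
    · simp only [(Cut.out hχ hy).1, zero_mul, le_refl]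
  have hle : ∀ z, (1 / 2) * (φ z * (g z * gsq L z)) ≤ lap v z * φ z -
      (dx (fun z => φ z * T z * A z) z + dy (fun z => φ z * T z * B z) z) + R z + 2 * (χ z * μ z) := by
    intro z
    have e1 : dx (fun z => φ z * T z * A z) z = dx φ z * T z * A z + φ z * dx T z * A z +
        φ z * T z * dx A z := D_mul3 sφ sT h.smoothA z 1
    have e2 : dy (fun z => φ z * T z * B z) z = dy φ z * T z * B z + φ z * dy T z * B z +
        φ z * T z * dy B z := D_mul3 sφ sT h.smoothB z I
    have e5 : dx T z = g z * dx L z := dT z 1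
    have e6 : dy T z = g z * dy L z := dT z I
    rw [e1, e2, e5, e6, hlapv z]
    by_cases hz : z ∈ ball (0 : ℂ) 3
    · rw [hR, Set.indicator_of_mem hz, h.eq z (ball_subset_ball (by norm_num) hz)]
      have hAB : √(A z ^ 2 + B z ^ 2) ≤ 1 := by
        rw [Real.sqrt_le_one]
        exact h.bd z (ball_subset_ball (by norm_num) hz)
      have hχ1 : χ z = 1 := hχ.one z (ball_subset_ball (by norm_num) hz)
      have hμ0 := h.nonneg z (ball_subset_ball (by norm_num) hz)
      have t1 : -(T z * (dx φ z * A z + dy φ z * B z)) ≤ 2 * √c := by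
        refine (neg_le_abs _).trans ?_
        rw [abs_mul]
        refine mul_le_mul (hTb z) ((cs2 _ _ _ _).trans ?_) (abs_nonneg _) (by norm_num)
        calc _ ≤ √c * 1 := mul_le_mul (Real.sqrt_le_sqrt (hc z).1) hAB (Real.sqrt_nonneg _) hc'
          _ = √c := mul_one _
      have t1' : T z * (dx φ z * A z + dy φ z * B z) ≤ 2 * √c := by
        refine (le_abs_self _).trans ?_
        rw [abs_mul]
        refine mul_le_mul (hTb z) ((cs2 _ _ _ _).trans ?_) (abs_nonneg _) (by norm_num)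
        calc _ ≤ √c * 1 := mul_le_mul (Real.sqrt_le_sqrt (hc z).1) hAB (Real.sqrt_nonneg _) hc'
          _ = √c := mul_one _
      have t2 : |dx L z * A z + dy L z * B z| ≤ √(gsq L z) := by
        refine (cs2 _ _ _ _).trans ?_
        exact mul_le_of_le_one_right (Real.sqrt_nonneg _) hAB
      have t3 : φ z * g z * (dx L z * A z + dy L z * B z) ≤ (1 / 2) * (φ z * (g z * gsq L z)) + 1 / 2 := by
        have hs := Real.sq_sqrt (gsq_nonneg L z)
        have hs0 := Real.sqrt_nonneg (gsq L z)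
        have hpg : 0 ≤ φ z * g z := mul_nonneg (φ0 z) (hg0 z).le
        have hpg1 : φ z * g z ≤ 1 := by
          have := mul_le_mul (φ1 z) (hg1 z) (hg0 z).le zero_le_one
          linarith
        have h3 : φ z * g z * (dx L z * A z + dy L z * B z) ≤ φ z * g z * √(gsq L z) :=
          mul_le_mul_of_nonneg_left ((le_abs_self _).trans t2) hpg
        have h4 : φ z * g z * √(gsq L z) ≤ φ z * g z * ((1 / 2) * gsq L z + 1 / 2) := by
          refine mul_le_mul_of_nonneg_left ?_ hpg
          nlinarith [sq_nonneg (√(gsq L z) - 1)]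
        nlinarith
      have t4 : -(φ z * T z * μ z) ≤ 2 * (χ z * μ z) := by
        rw [hχ1, one_mul]
        refine (neg_le_abs _).trans ?_
        rw [abs_mul, abs_mul, abs_of_nonneg (φ0 z), abs_of_nonneg hμ0]
        refine mul_le_mul_of_nonneg_right ?_ hμ0
        have := mul_le_mul (φ1 z) (hTb z) (abs_nonneg _) zero_le_one
        linarith
      have t5 : φ z * T z ≤ 2 := by
        refine (le_abs_self _).trans ?_
        rw [abs_mul, abs_of_nonneg (φ0 z)]
        have := mul_le_mul (φ1 z) (hTb z) (abs_nonneg _) zero_le_one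
        linarith
      nlinarith
    · obtain ⟨h1, h2, h3, -⟩ := φout z hz
      rw [hR, Set.indicator_of_notMem hz, h1, h2, h3]
      have := hχμ z
      simp only [zero_mul, mul_zero, add_zero, sub_zero, zero_add]
      linarith
  -- integration
  have cgc : Continuous g := by
    rw [hg]
    exact continuous_const.div (continuous_const.add (sL.continuous.pow 2)) fun z => by positivity
  have cgs : Continuous (gsq L) := (gsq_cd sL).continuous
  have i0 : Integrable (fun z => φ z * (g z * gsq L z)) :=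
    (sφ.continuous.mul (cgc.mul cgs)).integrable_of_hasCompactSupport cφ.mul_right
  have i1 : Integrable (fun z => lap v z * φ z) :=
    ((lap_cd sv).continuous.mul sφ.continuous).integrable_of_hasCompactSupport cφ.mul_left
  have i2 : Integrable (fun z => dx (fun z => φ z * T z * A z) z + dy (fun z => φ z * T z * B z) z) :=
    (int_der (cd1 s1) c1 1).1.add (int_der (cd1 s2) c2 I).1
  have i3 : Integrable R := by
    rw [hR]
    exact (integrable_indicator_iff measurableSet_ball).2 (integrableOn_const measure_ball_lt_top.ne)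
  have i4 : Integrable (fun z => χ z * μ z) :=
    (hχ.cd.continuous.mul h.contμ).integrable_of_hasCompactSupport hχ.cs.mul_right
  have i12 : Integrable (fun z => lap v z * φ z -
      (dx (fun z => φ z * T z * A z) z + dy (fun z => φ z * T z * B z) z)) := i1.sub i2
  have i123 : Integrable (fun z => lap v z * φ z -
      (dx (fun z => φ z * T z * A z) z + dy (fun z => φ z * T z * B z) z) + R z) := i12.add i3
  have i1234 : Integrable (fun z => lap v z * φ z -
      (dx (fun z => φ z * T z * A z) z + dy (fun z => φ z * T z * B z) z) + R z + 2 * (χ z * μ z)) :=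
    i123.add (i4.const_mul 2)
  have hint := integral_mono (i0.const_mul (1 / 2)) i1234 hle
  rw [integral_const_mul, integral_add i123 (i4.const_mul 2), integral_add i12 i3, integral_sub i1 i2,
    int_div s1 s2 c1 c2, ← PBx.green sv sφ cφ, integral_const_mul, hR,
    integral_indicator measurableSet_ball, setIntegral_const, smul_eq_mul] at hint
  have b1 : |∫ z, v z * lap φ z| ≤ √c * ∫ z in ball (0 : ℂ) 3, |v z| :=
    int_wt sv.continuous (fun y => Real.abs_le_sqrt (hc y).2) fun y hy => (φout y hy).2.2.2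
  have iL : IntegrableOn (fun z => |L z|) (ball (0 : ℂ) 3) :=
    (sL.continuous.abs.continuousOn.integrableOn_compact (isCompact_closedBall (0 : ℂ) 3)).mono_set
      ball_subset_closedBall
  have iv : IntegrableOn (fun z => |v z|) (ball (0 : ℂ) 3) :=
    (sv.continuous.abs.continuousOn.integrableOn_compact (isCompact_closedBall (0 : ℂ) 3)).mono_set
      ball_subset_closedBall
  have b2 : ∫ z in ball (0 : ℂ) 3, |v z| ≤ 2 * ∫ z in ball (0 : ℂ) 3, |L z| := by
    rw [← integral_const_mul]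
    refine setIntegral_mono iv (iL.const_mul 2) fun z => ?_
    rw [hv]
    exact HH_abs hM0 (L z)
  have b3 : √c * (∫ z in ball (0 : ℂ) 3, |v z|) ≤ √c * (2 * ∫ z in ball (0 : ℂ) 3, |L z|) :=
    mul_le_mul_of_nonneg_left b2 hc'
  have b4 : volume.real (ball (0 : ℂ) 3) * (2 * √c + 5 / 2) ≤ 29 * (2 * √c + 5 / 2) :=
    mul_le_mul_of_nonneg_right vol_ball3 (by positivity)
  have b5 := le_of_abs_le b1
  have hE : ∫ z, φ z * (g z * gsq L z) ≤ 2 * (2 * √c * (∫ z in ball (0 : ℂ) 3, |L z|) +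
      29 * (2 * √c + 5 / 2) + 2 * m) := by linarith
  -- the gradient
  have iL2 : IntegrableOn (fun z => L z ^ 2) (ball (0 : ℂ) 3) :=
    ((sL.continuous.pow 2).continuousOn.integrableOn_compact (isCompact_closedBall (0 : ℂ) 3)).mono_set
      ball_subset_closedBall
  have iM : IntegrableOn (fun _ : ℂ => M) (ball (0 : ℂ) 3) := integrableOn_const measure_ball_lt_top.ne
  have iML : IntegrableOn (fun z => M + L z ^ 2 / M) (ball (0 : ℂ) 3) := iM.add (iL2.div_const M)
  obtain ⟨Q, hQ⟩ : ∃ Q : ℂ → ℝ, Q = (ball (0 : ℂ) 3).indicator (fun z => M + L z ^ 2 / M) := ⟨_, rfl⟩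
  have iQ : Integrable Q := by rw [hQ]; exact (integrable_indicator_iff measurableSet_ball).2 iML
  have cS : Continuous fun z => √(gsq L z) := cgs.sqrt
  have iφS : Integrable (fun z => φ z * √(gsq L z)) :=
    (sφ.continuous.mul cS).integrable_of_hasCompactSupport cφ.mul_right
  have hpt : ∀ z, φ z * √(gsq L z) ≤ (1 / 2) * (φ z * (g z * gsq L z)) + (1 / 2) * Q z := by
    intro z
    by_cases hz : z ∈ ball (0 : ℂ) 3
    · rw [hQ, Set.indicator_of_mem hz, ← hginv]
      have hs := Real.sq_sqrt (gsq_nonneg L z)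
      have hs0 := Real.sqrt_nonneg (gsq L z)
      have hgz := hg0 z
      have hgi : 0 < (g z)⁻¹ := inv_pos.2 hgz
      have hgg : g z * (g z)⁻¹ = 1 := mul_inv_cancel₀ hgz.ne'
      have h1 : √(gsq L z) ≤ (1 / 2) * (g z * gsq L z) + (1 / 2) * (g z)⁻¹ := by
        have h2 : 0 ≤ g z * (√(gsq L z) - (g z)⁻¹) ^ 2 := by positivity
        nlinarith
      have h2 : φ z * √(gsq L z) ≤ φ z * ((1 / 2) * (g z * gsq L z) + (1 / 2) * (g z)⁻¹) :=
        mul_le_mul_of_nonneg_left h1 (φ0 z)
      have h3 : φ z * (g z)⁻¹ ≤ (g z)⁻¹ := mul_le_of_le_one_left hgi.le (φ1 z)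
      nlinarith
    · rw [hQ, Set.indicator_of_notMem hz, (φout z hz).1]
      simp
  have hS := integral_mono iφS ((i0.const_mul (1 / 2)).add (iQ.const_mul (1 / 2))) hpt
  have e0 : ∫ z in ball (0 : ℂ) 2, √(gsq L z) ≤ ∫ z, φ z * √(gsq L z) := by
    have h1 : ∫ z in ball (0 : ℂ) 2, √(gsq L z) = ∫ z in ball (0 : ℂ) 2, φ z * √(gsq L z) := by
      refine setIntegral_congr_fun measurableSet_ball fun z hz => ?_
      simp only [φ2 z hz, one_mul]
    rw [h1]
    exact setIntegral_le_integral iφS (Eventually.of_forall fun z =>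
      mul_nonneg (φ0 z) (Real.sqrt_nonneg _))
  have e1 : ∫ z, ((1 / 2) * (φ z * (g z * gsq L z)) + (1 / 2) * Q z) =
      (1 / 2) * (∫ z, φ z * (g z * gsq L z)) + (1 / 2) * ∫ z, Q z := by
    rw [integral_add (i0.const_mul (1 / 2)) (iQ.const_mul (1 / 2)), integral_const_mul, integral_const_mul]
  have e2 : ∫ z, Q z = volume.real (ball (0 : ℂ) 3) * M + (∫ z in ball (0 : ℂ) 3, L z ^ 2) / M := by
    rw [hQ, integral_indicator measurableSet_ball, integral_add iM (iL2.div_const M), setIntegral_const,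
      smul_eq_mul, integral_div]
  have e3 : volume.real (ball (0 : ℂ) 3) * M ≤ 29 * M := mul_le_mul_of_nonneg_right vol_ball3 hM0.le
  have e4 : 0 ≤ (∫ z in ball (0 : ℂ) 3, L z ^ 2) / M :=
    div_nonneg (setIntegral_nonneg measurableSet_ball fun z _ => sq_nonneg _) hM0.le
  refine e0.trans (hS.trans ?_)
  refine (le_of_eq e1).trans ?_
  rw [e2]
  linarith

theorem te2 : E2 := by
  obtain ⟨χ, k, hχ, hχ1⟩ := exists_cut1
  have hk := hχ.k0
  obtain ⟨φ, hφ⟩ : ∃ φ : ContDiffBump (0 : ℂ), φ = ⟨2, 5 / 2, by norm_num, by norm_num⟩ := ⟨_, rfl⟩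
  have sφ : ContDiff ℝ ∞ (φ : ℂ → ℝ) := φ.contDiff
  have cφ : HasCompactSupport (φ : ℂ → ℝ) := φ.hasCompactSupport
  obtain ⟨c, hc0, hc⟩ := bdd_derivs sφ cφ
  have hc' := Real.sqrt_nonneg c
  obtain ⟨a, ha⟩ : ∃ a : ℝ, a = 37 * 8207 := ⟨_, rfl⟩
  obtain ⟨b, hb⟩ : ∃ b : ℝ, b = k * a + 79 * k + 79 := ⟨_, rfl⟩
  obtain ⟨d, hd⟩ : ∃ d : ℝ, d = 6552 + 6426 * k + 5 * k * a := ⟨_, rfl⟩
  have ha0 : 0 < a := by rw [ha]; norm_num
  have hb0 : 0 ≤ b := by rw [hb]; positivity
  have hd0 : 0 ≤ d := by rw [hd]; positivity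
  refine ⟨2 * √c * a + 29 * (2 * √c + 5 / 2) + 2 * b + 29 + (58 * d ^ 2 + 56448 * b ^ 2), ?_, ?_⟩
  · have : 0 ≤ 2 * √c * a := by positivity
    have h2 : 0 ≤ 58 * d ^ 2 + 56448 * b ^ 2 := by positivity
    linarith
  intro L A B μ N J z₀ h hz hN0 hJ0 hN hJ
  obtain ⟨M, hM⟩ : ∃ M : ℝ, M = 1 + N + J := ⟨_, rfl⟩
  have hM1 : 1 ≤ M := by rw [hM]; linarith
  have hM0 : 0 < M := by linarith
  have h5 := h.L1 hz hN0 hN hJ
  obtain ⟨I5, hI5⟩ : ∃ I5 : ℝ, I5 = ∫ z in ball (0 : ℂ) 5, |L z| := ⟨_, rfl⟩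
  have hI50 : 0 ≤ I5 := by rw [hI5]; exact setIntegral_nonneg measurableSet_ball fun _ _ => abs_nonneg _
  have h5' : I5 ≤ a * M := by
    rw [hI5, ha, hM]
    refine h5.trans ?_
    nlinarith
  have hmass := h.mass hχ hχ1
  rw [← hI5] at hmass
  have hmass' : ∫ y, χ y * μ y ≤ b * M := by
    refine hmass.trans ?_
    rw [hb]
    nlinarith
  have hrep : 6552 + 6426 * k + 5 * k * (∫ z in ball (0 : ℂ) 5, |L z|) ≤ d * M := by
    rw [← hI5, hd]
    have : 5 * k * I5 ≤ 5 * k * (a * M) := mul_le_mul_of_nonneg_left h5' (by positivity)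
    nlinarith
  have hL2 := h.L2 hχ hχ1 hrep hmass'
  have hen := h.energy hχ hM1 hmass' sφ cφ (fun y => φ.nonneg) (fun y => φ.le_one)
    (fun y hy => φ.one_of_mem_closedBall (by rw [hφ]; exact ball_subset_closedBall hy))
    (fun y hy => by
      rw [hφ]
      exact bump_zero (r := 2) (R := 5 / 2) (by norm_num) (by norm_num) (by norm_num) hy) hc
  have iL5 : IntegrableOn (fun z => |L z|) (ball (0 : ℂ) 5) :=
    (h.smoothL.continuous.abs.continuousOn.integrableOn_compact (isCompact_closedBall (0 : ℂ) 5)).mono_set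
      ball_subset_closedBall
  have h3 : ∫ z in ball (0 : ℂ) 3, |L z| ≤ a * M := by
    refine le_trans ?_ h5'
    rw [hI5]
    exact setIntegral_mono_set iL5 (Eventually.of_forall fun x => abs_nonneg _)
      (Eventually.of_forall (ball_subset_ball (by norm_num)))
  have h6 : (∫ z in ball (0 : ℂ) 3, L z ^ 2) / M ≤ (58 * d ^ 2 + 56448 * b ^ 2) * M := by
    rw [div_le_iff₀ hM0]
    refine hL2.trans (le_of_eq ?_)
    ring
  have h7 : 2 * √c * (∫ z in ball (0 : ℂ) 3, |L z|) ≤ 2 * √c * (a * M) :=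
    mul_le_mul_of_nonneg_left h3 (by positivity)
  have h8 : 29 * (2 * √c + 5 / 2) ≤ 29 * (2 * √c + 5 / 2) * M :=
    le_mul_of_one_le_right (by positivity) hM1
  rw [← hM]
  refine hen.trans ?_
  nlinarith

end Run7.h341.NLen
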