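import Pool.Agent.Q73.AD.Fin
import Pool.Agent.Q73.AD.TR1
import Pool.Agent.Run7.h341.NLen.TE1
import Pool.Agent.Run7.h341.NLen.TE2
import Pool.Agent.Run7.h341.NLen.TE3
import Pool.Agent.Run7.h341.NLen.TE4
import Pool.Agent.Run7.h658.NLen.E5
import Pool.Agent.Run7.h159.NodE6
import Pool.Agent.Run7.h159.NodE7
import Pool.Agent.Run7.h578.YE8
import Pool.Agent.Run7.h578.YSm2

/-!
# Yau's upper bound for the nodal length on closed surfaces with isothermal charts: assembly
-/

set_option autoImplicit false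

namespace Run7.h341.NLen

open Pool.Agent.Q73.AD

universe u v

theorem te7 : E7 := Run7.h159.E7.te7 te2 Run7.h658.NLen.te5

theorem te8 : E8.{u, v} :=
  Run7.h578.E8.te8.{u, v} te7 fin_z6 fin_g1.{u, v} tg2.{u, v} (Run7.h578.E8.small.{u, v} fin_c5)

end Run7.h341.NLen
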