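import Mathlib
import Pool.Agent.Q73.AD.StmZ

/-!
# The length of the nodal set of eigenfunctions on smooth surfaces (Yau's upper bound): statements

`ℂ` is the plane, `dx`, `dy`, `lap` the partial derivatives and the Laplacian (`Pool.Agent.Q73.NL`), `sn f E` is
the supremum of `|f|` on `E` (`Pool.Agent.Q73.AD`).

Main idea. Let `|Δu| ≤ |u|`, `P = |∇u|² + u² + δ²`, `L = (log P) / 2`. Then
`ΔL = div ((Δu + u) ∇u / P) + μ - 1` with `μ ≥ 0`, and the vector field `(Δu + u) ∇u / P` has length `≤ 1`.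
Hence, if `L ≤ 0` and `L(z₀) ≥ -N`, the mass of `μ` and the integral of `|L|` are `≤ C (1 + N)`, the integral of
`L²` is `≤ C (1 + N)²` (logarithmic potential) and, testing the equation with `arctan (L / (1 + N))`,
`∫ |∇L| ≤ C (1 + N)`. The divergence of `∇u / √P` is at most `1 + |∇L|`; testing with `arctan (u / ε)` and
`ε → 0` bounds the length of the nodal set by `C (1 + N)`.
-/

set_option autoImplicit false
open MeasureTheory Filter Topology Complex Metric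
open scoped ContDiff

namespace Run7.h341.NLen

open Pool.Agent.Q73.NL Pool.Agent.Q73.AD

noncomputable section

universe v w

/-- the squared length of the gradient -/
def gsq (u : ℂ → ℝ) (z : ℂ) : ℝ := dx u z ^ 2 + dy u z ^ 2

/-- `|∇u|² + u² + δ²` -/
def PP (δ : ℝ) (u : ℂ → ℝ) (z : ℂ) : ℝ := gsq u z + u z ^ 2 + δ ^ 2

/-- its logarithm, halved -/
def LL (δ : ℝ) (u : ℂ → ℝ) (z : ℂ) : ℝ := (1 / 2) * Real.log (PP δ u z)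

/-- `ΔL = div (A, B) + μ - 1`, `μ ≥ 0`, `|(A, B)| ≤ 1` in the disc of radius 10 -/
structure Sys (L A B μ : ℂ → ℝ) : Prop where
  smoothL : ContDiff ℝ ∞ L
  smoothA : ContDiff ℝ ∞ A
  smoothB : ContDiff ℝ ∞ B
  contμ : Continuous μ
  eq : ∀ z ∈ ball (0 : ℂ) 10, lap L z = dx A z + dy B z + μ z - 1
  nonneg : ∀ z ∈ ball (0 : ℂ) 10, 0 ≤ μ z
  bd : ∀ z ∈ ball (0 : ℂ) 10, A z ^ 2 + B z ^ 2 ≤ 1

/-- E1: the identity -/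
def E1 : Prop := ∀ (δ : ℝ) (u : ℂ → ℝ), 0 < δ → ContDiff ℝ ∞ u →
  (∀ z ∈ ball (0 : ℂ) 10, |lap u z| ≤ |u z|) → ∃ A B μ : ℂ → ℝ, Sys (LL δ u) A B μ

/-- E2: the integral of the gradient of `L` -/
def E2 : Prop := ∃ C : ℝ, 1 ≤ C ∧ ∀ (L A B μ : ℂ → ℝ) (N J : ℝ) (z₀ : ℂ), Sys L A B μ →
  z₀ ∈ closedBall (0 : ℂ) 1 → 0 ≤ N → 0 ≤ J → -N ≤ L z₀ → ∫ z in ball (0 : ℂ) 9, max (L z) 0 ≤ J →
  ∫ z in ball (0 : ℂ) 2, √(gsq L z) ≤ C * (1 + N + J)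

/-- E3: the Caccioppoli inequality -/
def E3 : Prop := ∃ C : ℝ, 1 ≤ C ∧ ∀ (u : ℂ → ℝ) (S : ℝ), ContDiff ℝ ∞ u →
  (∀ z ∈ ball (0 : ℂ) 10, |lap u z| ≤ |u z| ∧ |u z| ≤ S) → ∫ z in ball (0 : ℂ) 9, gsq u z ≤ C * S ^ 2

/-- E4: the smoothed length of the nodal set -/
def E4 : Prop := ∃ C : ℝ, 1 ≤ C ∧ ∀ (u : ℂ → ℝ) (δ ε : ℝ), 0 < δ → 0 < ε → ContDiff ℝ ∞ u →
  (∀ z ∈ ball (0 : ℂ) 10, |lap u z| ≤ |u z|) →
  ∫ z in ball (0 : ℂ) 1, ε / (ε ^ 2 + u z ^ 2) * (gsq u z / √(PP δ u z)) ≤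
    C * (1 + ∫ z in ball (0 : ℂ) 2, √(gsq (LL δ u) z))

/-- E5: from the smoothed length to the length of the regular part of the nodal set -/
def E5 : Prop := ∃ C : ℝ, 1 ≤ C ∧ ∀ (u : ℂ → ℝ) (M δ₀ : ℝ), ContDiff ℝ ∞ u → 0 ≤ M → 0 < δ₀ →
  (∀ δ ε : ℝ, 0 < δ → δ ≤ δ₀ → 0 < ε →
    ∫ z in ball (0 : ℂ) 1, ε / (ε ^ 2 + u z ^ 2) * (gsq u z / √(PP δ u z)) ≤ M) →
  μH[1] {z : ℂ | z ∈ ball (0 : ℂ) 1 ∧ u z = 0 ∧ 0 < gsq u z} ≤ ENNReal.ofReal (C * M)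

/-- E6: the critical zeros are countable -/
def E6 : Prop := ∀ (Ω : Set ℂ) (q u : ℂ → ℝ), IsOpen Ω → ContDiffOn ℝ ∞ u Ω → ContDiffOn ℝ ∞ q Ω →
  (∀ z ∈ Ω, lap u z + q z * u z = 0) → NoFlat Ω u →
  {z : ℂ | z ∈ Ω ∧ u z = 0 ∧ gsq u z = 0}.Countable

/-- E7: the length of the nodal set in a small disc -/
def E7 : Prop := ∃ C : ℝ, 1 ≤ C ∧ ∀ (w : ℂ) (h : ℝ) (q u : ℂ → ℝ), 0 < h →
  (∀ z ∈ closedBall w (10 * h), ContDiffAt ℝ ∞ u z ∧ ContDiffAt ℝ ∞ q z ∧ h ^ 2 * |q z| ≤ 1 ∧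
    lap u z + q z * u z = 0) →
  (∀ (z : ℂ) (r : ℝ), 0 < r → closedBall z r ⊆ closedBall w (10 * h) → 0 < sn u (closedBall z r)) →
  μH[1] {z : ℂ | z ∈ ball w h ∧ u z = 0} ≤
    ENNReal.ofReal (C * h * (1 + Real.log (sn u (closedBall w (10 * h)) / sn u (closedBall w h))))

/-- E8: the length of the nodal set on a closed surface -/
def E8 : Prop := ∀ (M : Type v) (ι : Type w) [MetricSpace M] [CompactSpace M] [ConnectedSpace M]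
  [MeasurableSpace M] [BorelSpace M] (U : ι → Set ℂ) (φ : ι → ℂ → M) (ρ : ι → ℂ → ℝ), Atl U φ ρ →
  (∀ i, ∀ z ∈ U i, 0 < ρ i z) → (∀ i, ContDiffOn ℝ ∞ (ρ i) (U i)) →
  ∃ A : ℝ, ∀ (lam : ℝ) (f : M → ℝ), 0 < lam → Eig U φ ρ lam f → (∃ x, f x ≠ 0) →
    μH[1] {x : M | f x = 0} ≤ ENNReal.ofReal (A * √lam)

end

end Run7.h341.NLen
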