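import Pool.Agent.Run7.h341.NLen.TE3
import Pool.Agent.Q73.AD.YPB

/-!
# E2, first part: the logarithmic kernel against a divergence
-/

set_option autoImplicit false
open MeasureTheory Filter Topology Complex Metric
open scoped ContDiff

namespace Run7.h341.NLen

open Pool.Agent.Q73.NL Pool.Agent.Q73.AD Pool.Agent.Helper676.CSLog

lemma Lc_cd (c : ℝ) (hc : 0 < c) : ContDiff ℝ ∞ (Lc c) := by
  unfold Lc
  refine contDiff_const.mul (ContDiff.log ?_ ?_)
  · exact (contDiff_norm_sq ℝ).add contDiff_const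
  · intro x; positivity

lemma lim_Lc {g : ℂ → ℝ} (hg : Continuous g) (hs : HasCompactSupport g) :
    Tendsto (fun c : ℝ => ∫ z, Lc c z * g z) atTop (𝓝 (∫ z : ℂ, Real.log ‖z‖ * g z)) := by
  apply tendsto_integral_filter_of_dominated_convergence
    (fun z => (|Real.log ‖z‖| + (1 / 2) * Real.log (‖z‖ ^ 2 + 1)) * |g z|)
  · filter_upwards [eventually_gt_atTop 0] with c hc0
    exact ((contDiff_Lc hc0).continuous.mul hg).aestronglyMeasurable
  · filter_upwards [eventually_ge_atTop 1] with c hc1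
    have hz : ∀ᵐ z : ℂ, z ≠ 0 := by
      rw [ae_iff]; simp
    filter_upwards [hz] with z hz0
    rw [norm_mul, Real.norm_eq_abs, Real.norm_eq_abs]
    refine mul_le_mul_of_nonneg_right ?_ (abs_nonneg _)
    have hzp : 0 < ‖z‖ := norm_pos_iff.mpr hz0
    have hcp : (0 : ℝ) < (c ^ 2)⁻¹ := by positivity
    have hcle : (c ^ 2)⁻¹ ≤ 1 := inv_le_one_of_one_le₀ (by nlinarith)
    have lo : Real.log ‖z‖ ≤ Lc c z := by
      have : Real.log ‖z‖ = (1 / 2) * Real.log (‖z‖ ^ 2) := by
        rw [Real.log_pow]; push_cast; ring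
      rw [this, Lc]
      have := Real.log_le_log (x := ‖z‖ ^ 2) (y := ‖z‖ ^ 2 + (c ^ 2)⁻¹) (by positivity) (by linarith)
      linarith
    have hi : Lc c z ≤ (1 / 2) * Real.log (‖z‖ ^ 2 + 1) := by
      rw [Lc]
      have := Real.log_le_log (x := ‖z‖ ^ 2 + (c ^ 2)⁻¹) (y := ‖z‖ ^ 2 + 1) (by positivity) (by linarith)
      linarith
    have h0 : 0 ≤ Real.log (‖z‖ ^ 2 + 1) := Real.log_nonneg (by nlinarith)
    rw [abs_le]
    constructor
    · have := neg_abs_le (Real.log ‖z‖)
      linarith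
    · have := abs_nonneg (Real.log ‖z‖)
      linarith
  · have i1 : Integrable (fun z : ℂ => |Real.log ‖z‖| * |g z|) := by
      have := (locInt_log.integrable_smul_right_of_hasCompactSupport hg hs).norm
      simpa [norm_mul] using this
    have i2 : Integrable (fun z : ℂ => (1 / 2) * Real.log (‖z‖ ^ 2 + 1) * |g z|) := by
      refine Continuous.integrable_of_hasCompactSupport ?_ ?_
      · refine Continuous.mul (continuous_const.mul (Continuous.log (by fun_prop) ?_)) hg.abs
        intro x; positivity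
      · exact (hs.comp_left (g := fun t : ℝ => |t|) (by simp)).mul_left
    refine (i1.add i2).congr (Eventually.of_forall fun z => ?_)
    simp only [Pi.add_apply]
    ring
  · have hz : ∀ᵐ z : ℂ, z ≠ 0 := by
      rw [ae_iff]; simp
    filter_upwards [hz] with z hz0
    refine Tendsto.mul_const _ ?_
    have hzp : 0 < ‖z‖ := norm_pos_iff.mpr hz0
    have e : Real.log ‖z‖ = (1 / 2) * Real.log (‖z‖ ^ 2 + 0) := by
      rw [add_zero, Real.log_pow]; push_cast; ring
    rw [e]
    refine Tendsto.const_mul _ (Tendsto.log ?_ (by positivity))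
    refine Tendsto.const_add _ ?_
    exact tendsto_inv_atTop_zero.comp (tendsto_pow_atTop (by norm_num))

/-- integration by parts with a smooth kernel -/
lemma ker_div {k F G : ℂ → ℝ} (hk : ContDiff ℝ ∞ k) (hF : ContDiff ℝ ∞ F) (hG : ContDiff ℝ ∞ G)
    (cF : HasCompactSupport F) (cG : HasCompactSupport G) :
    ∫ z, k z * (dx F z + dy G z) = -∫ z, (dx k z * F z + dy k z * G z) := by
  have s1 : ContDiff ℝ ∞ (fun z => k z * F z) := hk.mul hF
  have s2 : ContDiff ℝ ∞ (fun z => k z * G z) := hk.mul hG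
  have h := int_div s1 s2 cF.mul_left cG.mul_left
  have e : ∀ z, dx (fun z => k z * F z) z + dy (fun z => k z * G z) z =
      k z * (dx F z + dy G z) + (dx k z * F z + dy k z * G z) := by
    intro z
    have e1 : dx (fun z => k z * F z) z = dx k z * F z + k z * dx F z := fd_mul 1 (da_of hk z) (da_of hF z)
    have e2 : dy (fun z => k z * G z) z = dy k z * G z + k z * dy G z := fd_mul I (da_of hk z) (da_of hG z)
    rw [e1, e2]
    ring
  have i1 : Integrable (fun z => k z * (dx F z + dy G z)) := by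
    have h1 : Integrable (fun z => k z * dx F z) :=
      (hk.continuous.mul (cd_d 1 hF).continuous).integrable_of_hasCompactSupport
        (cF.fderiv_apply ℝ 1).mul_left
    have h2 : Integrable (fun z => k z * dy G z) :=
      (hk.continuous.mul (cd_d I hG).continuous).integrable_of_hasCompactSupport
        (cG.fderiv_apply ℝ I).mul_left
    refine (h1.add h2).congr (Eventually.of_forall fun z => ?_)
    simp only [Pi.add_apply]
    ring
  have i2 : Integrable (fun z => dx k z * F z + dy k z * G z) := by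
    have h1 : Integrable (fun z => dx k z * F z) :=
      ((cd_d 1 hk).continuous.mul hF.continuous).integrable_of_hasCompactSupport cF.mul_left
    have h2 : Integrable (fun z => dy k z * G z) :=
      ((cd_d I hk).continuous.mul hG.continuous).integrable_of_hasCompactSupport cG.mul_left
    exact h1.add h2
  simp_rw [e] at h
  rw [integral_add i1 i2] at h
  linarith

lemma nsq (z : ℂ) : ‖z‖ ^ 2 = z.re ^ 2 + z.im ^ 2 := by
  rw [Complex.sq_norm, Complex.normSq_apply]; ring

/-- the gradient of the regularised logarithm -/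
lemma Lc_grad {c : ℝ} (hc : 0 < c) (z : ℂ) : dx (Lc c) z ^ 2 + dy (Lc c) z ^ 2 ≤ (‖z‖⁻¹) ^ 2 := by
  obtain ⟨κ, hκ⟩ : ∃ κ : ℝ, κ = (c ^ 2)⁻¹ := ⟨_, rfl⟩
  have hκ0 : 0 < κ := by rw [hκ]; positivity
  have e1 : dx (Lc c) z = z.re / (‖z‖ ^ 2 + κ) := by
    refine lineD_iff (da_of (Lc_cd c hc) z) ?_
    have h1 : (fun s : ℝ => Lc c (z + s • (1 : ℂ))) =
        fun s : ℝ => (1 / 2) * Real.log ((z.re + s) ^ 2 + z.im ^ 2 + κ) := by
      funext s
      unfold Lc
      rw [nsq, hκ]
      simp
    rw [h1, nsq]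
    have h2 : HasDerivAt (fun s : ℝ => (z.re + s) ^ 2 + z.im ^ 2 + κ) (2 * z.re) 0 := by
      have := ((((hasDerivAt_id (0 : ℝ)).const_add z.re).pow 2).add_const (z.im ^ 2)).add_const κ
      refine this.congr_deriv ?_
      simp
    have h3 := (h2.log (by positivity)).const_mul (1 / 2)
    refine h3.congr_deriv ?_
    simp
    ring
  have e2 : dy (Lc c) z = z.im / (‖z‖ ^ 2 + κ) := by
    refine lineD_iff (da_of (Lc_cd c hc) z) ?_
    have h1 : (fun s : ℝ => Lc c (z + s • I)) =
        fun s : ℝ => (1 / 2) * Real.log (z.re ^ 2 + (z.im + s) ^ 2 + κ) := by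
      funext s
      unfold Lc
      rw [nsq, hκ]
      simp
    rw [h1, nsq]
    have h2 : HasDerivAt (fun s : ℝ => z.re ^ 2 + (z.im + s) ^ 2 + κ) (2 * z.im) 0 := by
      have := ((((hasDerivAt_id (0 : ℝ)).const_add z.im).pow 2).const_add (z.re ^ 2)).add_const κ
      refine this.congr_deriv ?_
      simp
    have h3 := (h2.log (by positivity)).const_mul (1 / 2)
    refine h3.congr_deriv ?_
    simp
    ring
  rw [e1, e2, div_pow, div_pow, ← add_div, ← nsq]
  by_cases hz : z = 0
  · simp [hz]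
  have h0 : 0 < ‖z‖ := norm_pos_iff.2 hz
  rw [inv_pow, ← one_div, div_le_div_iff₀ (by positivity) (by positivity)]
  nlinarith [sq_nonneg (‖z‖), sq_nonneg (‖z‖ ^ 2), mul_nonneg (sq_nonneg ‖z‖) hκ0.le]

/-- the inverse distance is integrable -/
lemma inv_int {x : ℂ} (hx : x ∈ ball (0 : ℂ) 10) : IntegrableOn (fun y => ‖x - y‖⁻¹) (ball (0 : ℂ) 10) ∧
    ∫ y in ball (0 : ℂ) 10, ‖x - y‖⁻¹ ≤ 126 := by
  obtain ⟨f, hf⟩ : ∃ f : ℝ → ℝ, f = (Set.Iio (20 : ℝ)).indicator (fun t => t⁻¹) := ⟨_, rfl⟩
  have hset : Set.EqOn (fun y : ℝ => y ^ (Module.finrank ℝ ℂ - 1) • f y)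
      ((Set.Iio (20 : ℝ)).indicator fun _ => 1) (Set.Ioi 0) := by
    intro y hy
    have hy0 : (y : ℝ) ≠ 0 := (ne_of_gt hy)
    simp only [Complex.finrank_real_complex, hf]
    by_cases h : y ∈ Set.Iio (20 : ℝ)
    · rw [Set.indicator_of_mem h, Set.indicator_of_mem h]
      simp [hy0]
    · rw [Set.indicator_of_notMem h, Set.indicator_of_notMem h]
      simp
  have hI : IntegrableOn ((Set.Iio (20 : ℝ)).indicator fun _ => (1 : ℝ)) (Set.Ioi 0) := by
    rw [IntegrableOn, integrable_indicator_iff measurableSet_Iio, IntegrableOn,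
      Measure.restrict_restrict measurableSet_Iio]
    refine integrableOn_const ?_
    rw [Set.Iio_inter_Ioi]
    simp
  have hint : Integrable (fun z : ℂ => f ‖z‖) := by
    rw [integrable_fun_norm_addHaar]
    exact hI.congr_fun hset.symm measurableSet_Ioi
  have hval : ∫ z : ℂ, f ‖z‖ = 40 * Real.pi := by
    rw [integral_fun_norm_addHaar, setIntegral_congr_fun measurableSet_Ioi hset,
      setIntegral_indicator measurableSet_Iio, Set.inter_comm, Set.Iio_inter_Ioi, setIntegral_const]
    simp [Measure.real, Complex.volume_ball, Complex.finrank_real_complex]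
    ring
  have hint' : Integrable (fun y : ℂ => f ‖x - y‖) := hint.comp_sub_left x
  have hval' : ∫ y : ℂ, f ‖x - y‖ = 40 * Real.pi := by
    rw [integral_sub_left_eq_self (fun z : ℂ => f ‖z‖) volume x, hval]
  have heq : ∀ y ∈ ball (0 : ℂ) 10, f ‖x - y‖ = ‖x - y‖⁻¹ := by
    intro y hy
    rw [mem_ball, dist_zero_right] at hx hy
    rw [hf, Set.indicator_of_mem]
    rw [Set.mem_Iio]
    have := norm_sub_le x y
    linarith
  have hf0 : ∀ t, 0 ≤ t → 0 ≤ f t := by
    intro t ht
    rw [hf]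
    exact Set.indicator_apply_nonneg fun _ => inv_nonneg.2 ht
  constructor
  · exact hint'.integrableOn.congr_fun heq measurableSet_ball
  · rw [← setIntegral_congr_fun measurableSet_ball heq]
    refine (setIntegral_le_integral hint' (Eventually.of_forall fun y => hf0 _ (norm_nonneg _))).trans ?_
    rw [hval']
    have := Real.pi_lt_d2
    linarith

/-- the logarithmic kernel against a divergence -/
lemma log_div {F G : ℂ → ℝ} {x : ℂ} (hx : x ∈ ball (0 : ℂ) 10) (hF : ContDiff ℝ ∞ F)
    (hG : ContDiff ℝ ∞ G) (cF : HasCompactSupport F) (cG : HasCompactSupport G)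
    (h0 : ∀ y, y ∉ ball (0 : ℂ) 10 → F y = 0 ∧ G y = 0) (h1 : ∀ y, F y ^ 2 + G y ^ 2 ≤ 1) :
    |∫ y, Real.log ‖x - y‖ * (dx F y + dy G y)| ≤ 126 := by
  obtain ⟨g, hg⟩ : ∃ g : ℂ → ℝ, g = fun z => dx F (x - z) + dy G (x - z) := ⟨_, rfl⟩
  have cd : Continuous (fun y => dx F y + dy G y) := (cd_d 1 hF).continuous.add (cd_d I hG).continuous
  have sd : HasCompactSupport (fun y => dx F y + dy G y) :=
    (cF.fderiv_apply ℝ 1).add (cG.fderiv_apply ℝ I)
  have gc : Continuous g := by rw [hg]; exact cd.comp (by fun_prop : Continuous fun z : ℂ => x - z)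
  have gs : HasCompactSupport g := by
    rw [hg]
    exact sd.comp_homeomorph (Homeomorph.subLeft x)
  have hlim := lim_Lc gc gs
  have e1 : ∀ k : ℂ → ℝ, ∫ z, k z * g z = ∫ y, k (x - y) * (dx F y + dy G y) := by
    intro k
    rw [← integral_sub_left_eq_self (fun z => k z * g z) volume x]
    refine integral_congr_ae (Eventually.of_forall fun y => ?_)
    simp only [hg, sub_sub_cancel]
  rw [e1] at hlim
  refine le_of_tendsto hlim.abs ?_
  filter_upwards [eventually_gt_atTop 0] with c hc
  rw [e1]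
  have sk : ContDiff ℝ ∞ (fun y => Lc c (x - y)) := (Lc_cd c hc).comp (contDiff_const.sub contDiff_id)
  rw [ker_div sk hF hG cF cG, abs_neg]
  have hk : ∀ y e, fderiv ℝ (fun y => Lc c (x - y)) y e = -fderiv ℝ (Lc c) (x - y) e := by
    intro y e
    refine lineD_iff (da_of sk y) ?_
    have h2 : HasFDerivAt (Lc c) (fderiv ℝ (Lc c) (x - y)) (x - (y + (0 : ℝ) • e)) := by
      simpa using (da_of (Lc_cd c hc) (x - y)).hasFDerivAt
    have h3 : HasDerivAt (fun s : ℝ => x - (y + s • e)) (-e) 0 := by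
      have := (((hasDerivAt_id (0 : ℝ)).smul_const e).const_add y).const_sub x
      simpa using this
    have := h2.comp_hasDerivAt (0 : ℝ) h3
    refine this.congr_deriv ?_
    simp
  have hpt : ∀ y, ‖dx (fun y => Lc c (x - y)) y * F y + dy (fun y => Lc c (x - y)) y * G y‖ ≤
      (ball (0 : ℂ) 10).indicator (fun y => ‖x - y‖⁻¹) y := by
    intro y
    by_cases hy : y ∈ ball (0 : ℂ) 10
    · rw [Set.indicator_of_mem hy, Real.norm_eq_abs]
      have e2 : dx (fun y => Lc c (x - y)) y = -dx (Lc c) (x - y) := hk y 1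
      have e3 : dy (fun y => Lc c (x - y)) y = -dy (Lc c) (x - y) := hk y I
      rw [e2, e3]
      refine (cs2 _ _ _ _).trans ?_
      rw [neg_sq, neg_sq]
      have h4 := Real.sqrt_le_sqrt (Lc_grad hc (x - y))
      rw [Real.sqrt_sq (by positivity)] at h4
      have h5 : √(F y ^ 2 + G y ^ 2) ≤ 1 := by
        rw [Real.sqrt_le_one]
        exact h1 y
      calc _ ≤ ‖x - y‖⁻¹ * 1 := mul_le_mul h4 h5 (Real.sqrt_nonneg _) (by positivity)
        _ = _ := mul_one _
    · rw [Set.indicator_of_notMem hy, (h0 y hy).1, (h0 y hy).2]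
      simp
  have hi : Integrable ((ball (0 : ℂ) 10).indicator (fun y => ‖x - y‖⁻¹)) :=
    (integrable_indicator_iff measurableSet_ball).2 (inv_int hx).1
  have h6 := norm_integral_le_of_norm_le hi (Eventually.of_forall hpt)
  rw [integral_indicator measurableSet_ball] at h6
  exact h6.trans (inv_int hx).2

end Run7.h341.NLen
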