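import Pool.Agent.Run7.h341.NLen.TE2a
import Pool.Agent.Helper676.CS6

/-!
# E2, second part: the mean value kernel
-/

set_option autoImplicit false
open MeasureTheory Filter Topology Complex Metric
open scoped ContDiff

namespace Run7.h341.NLen

open Pool.Agent.Q73.NL Pool.Agent.Q73.AD Pool.Agent.Helper676.CSLog

/-- the profile -/
noncomputable def U0 (x : ℝ) : ℝ :=
  if x ≤ 64 then (1 / 2) * ((1 - x / 64) + (1 - x / 64) ^ 2 / 2) else -(1 / 2) * Real.log (x / 64)

noncomputable def U1 (x : ℝ) : ℝ := if x ≤ 64 then -(1 / 128) * (2 - x / 64) else -(1 / 2) * x⁻¹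

noncomputable def U2 (x : ℝ) : ℝ := if x ≤ 64 then 1 / 8192 else (1 / 2) * (x⁻¹) ^ 2

lemma U0_der (x : ℝ) : HasDerivAt U0 (U1 x) x := by
  unfold U0 U1
  refine Pool.Agent.Helper676.CS.hasDerivAt_glue
    (f₁ := fun x => (1 / 2) * ((1 - x / 64) + (1 - x / 64) ^ 2 / 2))
    (f₂ := fun x => -(1 / 2) * Real.log (x / 64)) (f₁' := fun x => -(1 / 128) * (2 - x / 64))
    (f₂' := fun x => -(1 / 2) * x⁻¹) 64 (fun x _ => ?_) (fun x hx => ?_) ?_ ?_ x
  · have h1 : HasDerivAt (fun x : ℝ => 1 - x / 64) (-(1 / 64)) x := by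
      simpa using ((hasDerivAt_id x).div_const 64).const_sub 1
    have h2 := (h1.add ((h1.pow 2).div_const 2)).const_mul (1 / 2 : ℝ)
    refine h2.congr_deriv ?_
    ring
  · have hx0 : x ≠ 0 := by linarith
    have h1 : HasDerivAt (fun x : ℝ => x / 64) (1 / 64) x := (hasDerivAt_id x).div_const 64
    have h2 := (h1.log (by positivity)).const_mul (-(1 / 2) : ℝ)
    refine h2.congr_deriv ?_
    field_simp
  · norm_num
  · norm_num

lemma U1_der (x : ℝ) : HasDerivAt U1 (U2 x) x := by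
  unfold U1 U2
  refine Pool.Agent.Helper676.CS.hasDerivAt_glue (f₁ := fun x => -(1 / 128) * (2 - x / 64))
    (f₂ := fun x => -(1 / 2) * x⁻¹) (f₁' := fun _ => 1 / 8192)
    (f₂' := fun x => (1 / 2) * (x⁻¹) ^ 2) 64 (fun x _ => ?_) (fun x hx => ?_) ?_ ?_ x
  · have h1 : HasDerivAt (fun x : ℝ => 2 - x / 64) (-(1 / 64)) x := by
      simpa using ((hasDerivAt_id x).div_const 64).const_sub 2
    have h2 := h1.const_mul (-(1 / 128) : ℝ)
    refine h2.congr_deriv ?_
    norm_num
  · have hx0 : x ≠ 0 := by linarith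
    have := (hasDerivAt_inv hx0).const_mul (-(1 / 2) : ℝ)
    refine this.congr_deriv ?_
    field_simp
  · norm_num
  · norm_num

lemma U2_cont : Continuous U2 := by
  have : U2 = fun x => (1 / 2) * ((max x 64)⁻¹) ^ 2 := by
    funext x
    unfold U2
    split_ifs with h
    · rw [max_eq_right h]; norm_num
    · rw [max_eq_left (not_le.1 h).le]
  rw [this]
  have h0 : ∀ x : ℝ, max x 64 ≠ 0 := fun x => by
    have := le_max_right x 64
    linarith
  have h1 : Continuous fun x : ℝ => (max x 64)⁻¹ := (continuous_id.max continuous_const).inv₀ h0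
  exact continuous_const.mul (h1.pow 2)

lemma U0_cd : ContDiff ℝ 2 U0 := by
  have h1 : deriv U0 = U1 := funext fun x => (U0_der x).deriv
  have h2 : deriv U1 = U2 := funext fun x => (U1_der x).deriv
  have h3 : ContDiff ℝ 1 U1 := by
    rw [contDiff_one_iff_deriv]
    exact ⟨fun x => (U1_der x).differentiableAt, by rw [h2]; exact U2_cont⟩
  rw [show (2 : WithTop ℕ∞) = 1 + 1 by norm_num, contDiff_succ_iff_deriv]
  refine ⟨fun x => (U0_der x).differentiableAt, by simp, ?_⟩
  rw [h1]; exact h3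

/-- the weight -/
noncomputable def wt0 (y : ℂ) : ℝ := if ‖y‖ ^ 2 ≤ 64 then (1 / 16) * (1 - ‖y‖ ^ 2 / 64) else 0

/-- the smooth part of the kernel -/
noncomputable def Uk (y : ℂ) : ℝ := U0 (‖y‖ ^ 2)

/-- the kernel -/
noncomputable def Kk (y : ℂ) : ℝ := Real.log ‖y‖ - Real.log 8 + Uk y

lemma Uk_cd : ContDiff ℝ 2 Uk := U0_cd.comp (contDiff_norm_sq ℝ)

lemma Uk_lap (y : ℂ) : Laplacian.laplacian Uk y = -wt0 y := by
  have h := laplacian_comp_normSq (E := ℂ) (x := y) (U := U0) (U' := U1) (U'' := U2)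
    (Eventually.of_forall fun s => U0_der s) (U1_der _)
  change Laplacian.laplacian (fun y : ℂ => U0 (‖y‖ ^ 2)) y = _
  rw [h, Complex.finrank_real_complex]
  unfold U2 U1 wt0
  split_ifs with h1
  · push_cast; ring
  · have h2 : ‖y‖ ^ 2 ≠ 0 := by linarith
    push_cast
    field_simp
    ring

lemma Kk_zero {y : ℂ} (hy : 8 ≤ ‖y‖) : Kk y = 0 := by
  unfold Kk Uk U0
  have h0 : 0 < ‖y‖ := by linarith
  split_ifs with h
  · have h1 : ‖y‖ = 8 := by nlinarith
    rw [h1]; norm_num
  · rw [Real.log_div (by positivity) (by norm_num), Real.log_pow,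
      show (64 : ℝ) = 8 ^ 2 by norm_num, Real.log_pow]
    push_cast
    ring

lemma Kk_nonpos {y : ℂ} (hy : y ≠ 0) : Kk y ≤ 0 := by
  by_cases h : 8 ≤ ‖y‖
  · exact (Kk_zero h).le
  have h0 : 0 < ‖y‖ := norm_pos_iff.2 hy
  have h1 : ‖y‖ < 8 := not_le.1 h
  have h2 : ‖y‖ ^ 2 ≤ 64 := by nlinarith
  unfold Kk Uk U0
  rw [if_pos h2]
  have h3 := Pool.Agent.Helper676.CS.log_add_le (τ := ‖y‖ ^ 2 / 64) (by positivity) (by linarith)
  rw [Real.log_div (by positivity) (by norm_num), Real.log_pow,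
    show (64 : ℝ) = 8 ^ 2 by norm_num, Real.log_pow] at h3
  push_cast at h3
  norm_num at h3 ⊢
  linarith

lemma Uk_abs {y : ℂ} (hy : ‖y‖ ≤ 11) : |Uk y| ≤ 1 := by
  unfold Uk U0
  have h0 := norm_nonneg y
  split_ifs with h
  · have h1 : 0 ≤ 1 - ‖y‖ ^ 2 / 64 := by linarith
    have h2 : 1 - ‖y‖ ^ 2 / 64 ≤ 1 := by
      have : 0 ≤ ‖y‖ ^ 2 := by positivity
      linarith
    rw [abs_of_nonneg (by positivity)]
    nlinarith
  · have h1 : 1 ≤ ‖y‖ ^ 2 / 64 := by linarith
    have h2 := Real.log_nonneg h1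
    have h3 := Real.log_le_sub_one_of_pos (x := ‖y‖ ^ 2 / 64) (by linarith)
    have h4 : ‖y‖ ^ 2 ≤ 121 := by nlinarith
    rw [abs_le]
    constructor <;> linarith

lemma Uk_grad {y : ℂ} (hy : ‖y‖ ≤ 11) : dx Uk y ^ 2 + dy Uk y ^ 2 ≤ 1 := by
  have hD : HasFDerivAt Uk (U1 (‖y‖ ^ 2) • (2 • (innerSL ℝ y))) y :=
    (U0_der _).comp_hasFDerivAt y (hasStrictFDerivAt_norm_sq y).hasFDerivAt
  have e1 : dx Uk y = 2 * U1 (‖y‖ ^ 2) * y.re := by
    unfold dx
    rw [hD.fderiv]
    simp only [smul_apply, innerSL_apply_apply, Complex.inner, smul_eq_mul]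
    simp
    ring
  have e2 : dy Uk y = 2 * U1 (‖y‖ ^ 2) * y.im := by
    unfold dy
    rw [hD.fderiv]
    simp only [smul_apply, innerSL_apply_apply, Complex.inner, smul_eq_mul]
    simp
    ring
  have e3 : dx Uk y ^ 2 + dy Uk y ^ 2 = 4 * (U1 (‖y‖ ^ 2)) ^ 2 * ‖y‖ ^ 2 := by
    rw [e1, e2, nsq]; ring
  have h1 : |U1 (‖y‖ ^ 2)| ≤ 1 / 64 := by
    unfold U1
    have h0 : 0 ≤ ‖y‖ ^ 2 := by positivity
    split_ifs with h
    · rw [abs_le]
      constructor <;> linarith
    · have h3 : (‖y‖ ^ 2)⁻¹ ≤ 1 / 64 := by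
        rw [inv_le_comm₀ (by linarith) (by norm_num)]
        linarith
      have h4 : 0 ≤ (‖y‖ ^ 2)⁻¹ := by positivity
      rw [abs_le]
      constructor <;> linarith
  have h2 : (U1 (‖y‖ ^ 2)) ^ 2 ≤ (1 / 64) ^ 2 := by
    rw [← sq_abs]
    exact pow_le_pow_left₀ (abs_nonneg _) h1 2
  have h3 : ‖y‖ ^ 2 ≤ 121 := by nlinarith [norm_nonneg y]
  rw [e3]
  have h4 : 4 * (U1 (‖y‖ ^ 2)) ^ 2 * ‖y‖ ^ 2 ≤ 4 * (1 / 64) ^ 2 * 121 :=
    mul_le_mul (by linarith) h3 (by positivity) (by positivity)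
  linarith

/-- the mean value formula at the origin -/
lemma ker0 {F : ℂ → ℝ} (hF : ContDiff ℝ ∞ F) (hc : HasCompactSupport F) :
    ∫ y, Kk y * lap F y = 2 * Real.pi * F 0 - ∫ y, wt0 y * F y := by
  have cL : Continuous (lap F) := (PBx.lap_cd hF).continuous
  have sL : HasCompactSupport (lap F) := PBx.lap_cs hc
  have e1 : ∫ y, Real.log ‖y‖ * lap F y = 2 * Real.pi * F 0 := by
    have := PBx.fund hF hc 0
    simpa using this
  have e2 : ∫ y, Uk y * lap F y = -∫ y, wt0 y * F y := by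
    have h := green Uk_cd (PBx.cd2 hF) hc
    simp only [PBx.lap_eq_laplacian (PBx.cd2 hF), Uk_lap] at h
    rw [h, ← integral_neg]
    refine integral_congr_ae (Eventually.of_forall fun y => ?_)
    simp
  have e3 : ∫ y, lap F y = 0 := by
    exact int_div (cd_d 1 hF) (cd_d I hF) (hc.fderiv_apply ℝ 1) (hc.fderiv_apply ℝ I)
  have i1 : Integrable (fun y => Real.log ‖y‖ * lap F y) := by
    have := PBx.log_int cL sL 0
    simpa using this
  have i2 : Integrable (fun y => Uk y * lap F y) :=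
    (Uk_cd.continuous.mul cL).integrable_of_hasCompactSupport sL.mul_left
  have i3 : Integrable (fun y => Real.log 8 * lap F y) :=
    (cL.integrable_of_hasCompactSupport sL).const_mul _
  have e4 : ∀ y, Kk y * lap F y = Real.log ‖y‖ * lap F y - Real.log 8 * lap F y + Uk y * lap F y := by
    intro y
    unfold Kk
    ring
  simp_rw [e4]
  have i13 : Integrable (fun y => Real.log ‖y‖ * lap F y - Real.log 8 * lap F y) := i1.sub i3
  rw [integral_add i13 i2, integral_sub i1 i3, e1, e2, integral_const_mul, e3]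
  ring

/-- integration by parts with a kernel of class `C¹` -/
lemma ker_div1 {k F G : ℂ → ℝ} (hk : ContDiff ℝ 1 k) (hF : ContDiff ℝ ∞ F) (hG : ContDiff ℝ ∞ G)
    (cF : HasCompactSupport F) (cG : HasCompactSupport G) :
    ∫ z, k z * (dx F z + dy G z) = -∫ z, (dx k z * F z + dy k z * G z) := by
  have dk : ∀ z, DifferentiableAt ℝ k z := fun z => (hk.differentiable (by simp)) z
  have s1 : ContDiff ℝ 1 (fun z => k z * F z) := hk.mul (cd1 hF)
  have s2 : ContDiff ℝ 1 (fun z => k z * G z) := hk.mul (cd1 hG)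
  have h1 := int_der s1 cF.mul_left 1
  have h2 := int_der s2 cG.mul_left I
  have h : ∫ z, (dx (fun z => k z * F z) z + dy (fun z => k z * G z) z) = 0 := by
    have := integral_add h1.1 h2.1
    rw [h1.2, h2.2, add_zero] at this
    exact this
  have e : ∀ z, dx (fun z => k z * F z) z + dy (fun z => k z * G z) z =
      k z * (dx F z + dy G z) + (dx k z * F z + dy k z * G z) := by
    intro z
    have e1 : dx (fun z => k z * F z) z = dx k z * F z + k z * dx F z := fd_mul 1 (dk z) (da_of hF z)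
    have e2 : dy (fun z => k z * G z) z = dy k z * G z + k z * dy G z := fd_mul I (dk z) (da_of hG z)
    rw [e1, e2]
    ring
  have i1 : Integrable (fun z => k z * (dx F z + dy G z)) := by
    have h1 : Integrable (fun z => k z * dx F z) :=
      (hk.continuous.mul (cd_d 1 hF).continuous).integrable_of_hasCompactSupport
        (cF.fderiv_apply ℝ 1).mul_left
    have h2 : Integrable (fun z => k z * dy G z) :=
      (hk.continuous.mul (cd_d I hG).continuous).integrable_of_hasCompactSupport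
        (cG.fderiv_apply ℝ I).mul_left
    refine (h1.add h2).congr (Eventually.of_forall fun z => ?_)
    simp only [Pi.add_apply]
    ring
  have hkc : ∀ e : ℂ, Continuous fun z => fderiv ℝ k z e := fun e =>
    (hk.continuous_fderiv one_ne_zero).clm_apply continuous_const
  have i2 : Integrable (fun z => dx k z * F z + dy k z * G z) := by
    have h1 : Integrable (fun z => dx k z * F z) :=
      ((hkc 1).mul hF.continuous).integrable_of_hasCompactSupport cF.mul_left
    have h2 : Integrable (fun z => dy k z * G z) :=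
      ((hkc I).mul hG.continuous).integrable_of_hasCompactSupport cG.mul_left
    exact h1.add h2
  simp_rw [e] at h
  rw [integral_add i1 i2] at h
  linarith

/-- the kernel `Uk` against a divergence -/
lemma Uk_div {F G : ℂ → ℝ} {x : ℂ} (hx : x ∈ closedBall (0 : ℂ) 1) (hF : ContDiff ℝ ∞ F)
    (hG : ContDiff ℝ ∞ G) (cF : HasCompactSupport F) (cG : HasCompactSupport G)
    (h0 : ∀ y, y ∉ ball (0 : ℂ) 10 → F y = 0 ∧ G y = 0) (h1 : ∀ y, F y ^ 2 + G y ^ 2 ≤ 1) :
    |∫ y, Uk (y - x) * (dx F y + dy G y)| ≤ 315 := by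
  have sk : ContDiff ℝ 1 (fun y => Uk (y - x)) :=
    (Uk_cd.of_le (by norm_num)).comp (contDiff_id.sub contDiff_const)
  rw [ker_div1 sk hF hG cF cG, abs_neg]
  have hk : ∀ y e, fderiv ℝ (fun y => Uk (y - x)) y e = fderiv ℝ Uk (y - x) e := by
    intro y e
    simp only [sub_eq_add_neg]
    rw [fderiv_comp_add_right]
  have hpt : ∀ y, ‖dx (fun y => Uk (y - x)) y * F y + dy (fun y => Uk (y - x)) y * G y‖ ≤
      (ball (0 : ℂ) 10).indicator (fun _ => 1) y := by
    intro y
    by_cases hy : y ∈ ball (0 : ℂ) 10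
    · rw [Set.indicator_of_mem hy, Real.norm_eq_abs]
      have e2 : dx (fun y => Uk (y - x)) y = dx Uk (y - x) := hk y 1
      have e3 : dy (fun y => Uk (y - x)) y = dy Uk (y - x) := hk y I
      rw [e2, e3]
      refine (cs2 _ _ _ _).trans ?_
      have h3 : ‖y - x‖ ≤ 11 := by
        rw [mem_ball, dist_zero_right] at hy
        rw [mem_closedBall, dist_zero_right] at hx
        have := norm_sub_le y x
        linarith
      have h4 : √(dx Uk (y - x) ^ 2 + dy Uk (y - x) ^ 2) ≤ 1 := by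
        rw [Real.sqrt_le_one]
        exact Uk_grad h3
      have h5 : √(F y ^ 2 + G y ^ 2) ≤ 1 := by
        rw [Real.sqrt_le_one]
        exact h1 y
      calc _ ≤ (1 : ℝ) * 1 := mul_le_mul h4 h5 (Real.sqrt_nonneg _) (by positivity)
        _ = _ := mul_one _
    · rw [Set.indicator_of_notMem hy, (h0 y hy).1, (h0 y hy).2]
      simp
  have hi : Integrable ((ball (0 : ℂ) 10).indicator (fun _ => (1 : ℝ))) :=
    (integrable_indicator_iff measurableSet_ball).2 (integrableOn_const measure_ball_lt_top.ne)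
  have h6 := norm_integral_le_of_norm_le hi (Eventually.of_forall hpt)
  rw [integral_indicator measurableSet_ball, setIntegral_const, smul_eq_mul, mul_one] at h6
  exact h6.trans vol_ball10

/-- the logarithm is integrable -/
lemma abs_log_le {t : ℝ} (ht : 0 ≤ t) : |Real.log t| ≤ t + t⁻¹ := by
  rcases ht.eq_or_lt with rfl | h
  · simp
  have h1 := Real.log_le_sub_one_of_pos h
  have h2 := Real.log_le_sub_one_of_pos (inv_pos.2 h)
  rw [Real.log_inv] at h2
  have h3 : 0 < t⁻¹ := inv_pos.2 h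
  rw [abs_le]
  constructor <;> linarith

/-- the integral of the kernel -/
lemma Kk_int {x : ℂ} (hx : x ∈ closedBall (0 : ℂ) 1) {χ : ℂ → ℝ}
    (h01 : ∀ y, 0 ≤ χ y ∧ χ y ≤ 1) (h0 : ∀ y, y ∉ ball (0 : ℂ) 10 → χ y = 0) :
    ∫ y, |Kk (y - x)| * χ y ≤ 7686 := by
  have hx' : x ∈ ball (0 : ℂ) 10 := closedBall_subset_ball (by norm_num) hx
  have hpt : ∀ y, ‖|Kk (y - x)| * χ y‖ ≤
      (ball (0 : ℂ) 10).indicator (fun y => ‖x - y‖⁻¹ + 24) y := by
    intro y
    by_cases hy : y ∈ ball (0 : ℂ) 10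
    · rw [Set.indicator_of_mem hy, norm_mul, Real.norm_eq_abs, abs_abs, Real.norm_eq_abs,
        abs_of_nonneg (h01 y).1]
      have h3 : ‖y - x‖ ≤ 11 := by
        rw [mem_ball, dist_zero_right] at hy
        rw [mem_closedBall, dist_zero_right] at hx
        have := norm_sub_le y x
        linarith
      have h4 : |Kk (y - x)| ≤ ‖x - y‖⁻¹ + 24 := by
        unfold Kk
        have h5 := abs_log_le (norm_nonneg (y - x))
        have h6 : |Real.log 8| ≤ 9 := (abs_log_le (by norm_num)).trans (by norm_num)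
        have h7 := Uk_abs h3
        have h8 := abs_add_le (Real.log ‖y - x‖ - Real.log 8) (Uk (y - x))
        have h9 := abs_sub (Real.log ‖y - x‖) (Real.log 8)
        rw [norm_sub_rev x y]
        linarith
      calc _ ≤ |Kk (y - x)| * 1 := mul_le_mul_of_nonneg_left (h01 y).2 (abs_nonneg _)
        _ ≤ _ := by linarith
    · rw [Set.indicator_of_notMem hy, h0 y hy]
      simp
  have hi : IntegrableOn (fun y => ‖x - y‖⁻¹ + 24) (ball (0 : ℂ) 10) :=
    (inv_int hx').1.add (integrableOn_const measure_ball_lt_top.ne)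
  have h6 := norm_integral_le_of_norm_le ((integrable_indicator_iff measurableSet_ball).2 hi)
    (Eventually.of_forall hpt)
  rw [integral_indicator measurableSet_ball, integral_add (inv_int hx').1
    (integrableOn_const measure_ball_lt_top.ne), setIntegral_const, smul_eq_mul] at h6
  have h7 := (inv_int hx').2
  have h8 := vol_ball10
  refine (le_abs_self _).trans (h6.trans ?_)
  nlinarith

end Run7.h341.NLen
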