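import Pool.Agent.Run7.h341.NLen.TE2b

/-!
# E2, third part: the mean value inequality and the integral of `|L|`
-/

set_option autoImplicit false
open MeasureTheory Filter Topology Complex Metric
open scoped ContDiff

namespace Run7.h341.NLen

open Pool.Agent.Q73.NL Pool.Agent.Q73.AD Pool.Agent.Helper676.CSLog

lemma dxy_ev {f g : ℂ → ℝ} {z : ℂ} (h : f =ᶠ[𝓝 z] g) : dx f z = dx g z ∧ dy f z = dy g z ∧ lap f z = lap g z := by
  have h1 : fderiv ℝ f z = fderiv ℝ g z := h.fderiv_eq
  have hx : dx f =ᶠ[𝓝 z] dx g := by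
    filter_upwards [h.fderiv (𝕜 := ℝ)] with w hw
    unfold dx; rw [hw]
  have hy : dy f =ᶠ[𝓝 z] dy g := by
    filter_upwards [h.fderiv (𝕜 := ℝ)] with w hw
    unfold dy; rw [hw]
  refine ⟨by unfold dx; rw [h1], by unfold dy; rw [h1], ?_⟩
  unfold lap
  have e1 : dx (dx f) z = dx (dx g) z := by
    change fderiv ℝ (dx f) z 1 = fderiv ℝ (dx g) z 1
    rw [hx.fderiv_eq]
  have e2 : dy (dy f) z = dy (dy g) z := by
    change fderiv ℝ (dy f) z I = fderiv ℝ (dy g) z I
    rw [hy.fderiv_eq]
  rw [e1, e2]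

lemma Kk_locint (x : ℂ) {g : ℂ → ℝ} (hg : Continuous g) (hs : HasCompactSupport g) :
    Integrable (fun y => Kk (y - x) * g y) := by
  have i1 : Integrable (fun y => Real.log ‖x - y‖ * g y) := PBx.log_int hg hs x
  have i2 : Integrable (fun y => Uk (y - x) * g y) := by
    have : Continuous fun y => Uk (y - x) := Uk_cd.continuous.comp (by fun_prop)
    exact (this.mul hg).integrable_of_hasCompactSupport hs.mul_left
  have i3 : Integrable (fun y => Real.log 8 * g y) :=
    (hg.integrable_of_hasCompactSupport hs).const_mul _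
  refine ((i1.sub i3).add i2).congr (Eventually.of_forall fun y => ?_)
  simp only [Pi.add_apply, Pi.sub_apply, Kk, norm_sub_rev y x]
  ring

variable {L A B μ : ℂ → ℝ}

lemma Sys.mean (h : Sys L A B μ) {x : ℂ} (hx : x ∈ closedBall (0 : ℂ) 1) :
    2 * Real.pi * L x - 8200 ≤ ∫ y, wt0 (y - x) * L y := by
  obtain ⟨χ, hχ⟩ : ∃ χ : ContDiffBump (0 : ℂ), χ = ⟨9, 19 / 2, by norm_num, by norm_num⟩ := ⟨_, rfl⟩
  have sχ : ContDiff ℝ ∞ (χ : ℂ → ℝ) := χ.contDiff
  have cχ : HasCompactSupport (χ : ℂ → ℝ) := χ.hasCompactSupport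
  have hx10 : x ∈ ball (0 : ℂ) 10 := closedBall_subset_ball (by norm_num) hx
  have hχ1 : ∀ y ∈ closedBall (0 : ℂ) 9, χ y = 1 := fun y hy => χ.one_of_mem_closedBall (by rw [hχ]; exact hy)
  have hχ0 : ∀ y, y ∉ ball (0 : ℂ) 10 → χ y = 0 := fun y hy => by
    rw [hχ]
    exact (bump_zero (r := 9) (R := 19 / 2) (by norm_num) (by norm_num) (by norm_num) hy).1
  have hχev : ∀ y ∈ ball (0 : ℂ) 9, ∀ g : ℂ → ℝ, (fun y => χ y * g y) =ᶠ[𝓝 y] g := by
    intro y hy g
    filter_upwards [isOpen_ball.mem_nhds hy] with w hw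
    rw [hχ1 w (ball_subset_closedBall hw), one_mul]
  have sF : ContDiff ℝ ∞ (fun y => χ y * L y) := sχ.mul h.smoothL
  have cF : HasCompactSupport (fun y => χ y * L y) := cχ.mul_right
  have sA : ContDiff ℝ ∞ (fun y => χ y * A y) := sχ.mul h.smoothA
  have cA : HasCompactSupport (fun y => χ y * A y) := cχ.mul_right
  have sB : ContDiff ℝ ∞ (fun y => χ y * B y) := sχ.mul h.smoothB
  have cB : HasCompactSupport (fun y => χ y * B y) := cχ.mul_right
  -- the shifted formula
  have hmain : ∫ y, Kk (y - x) * lap (fun y => χ y * L y) y = 2 * Real.pi * L x -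
      ∫ y, wt0 (y - x) * L y := by
    have sG : ContDiff ℝ ∞ (fun z => (fun y => χ y * L y) (x + z)) :=
      sF.comp (contDiff_const.add contDiff_id)
    have cG : HasCompactSupport (fun z => (fun y => χ y * L y) (x + z)) := by
      have := cF.comp_homeomorph (Homeomorph.addLeft x)
      exact this
    have h1 := ker0 sG cG
    simp only [PBx.lap_shift (fun y => χ y * L y), add_zero] at h1
    have e1 : ∫ y, Kk (y - x) * lap (fun y => χ y * L y) y =
        ∫ y, Kk y * lap (fun y => χ y * L y) (x + y) := by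
      rw [← integral_add_left_eq_self (fun y => Kk (y - x) * lap (fun y => χ y * L y) y) x]
      simp only [add_sub_cancel_left]
    have e2 : ∫ y, wt0 (y - x) * L y = ∫ y, wt0 y * (χ (x + y) * L (x + y)) := by
      rw [← integral_add_left_eq_self (fun y => wt0 (y - x) * L y) x]
      refine integral_congr_ae (Eventually.of_forall fun y => ?_)
      simp only [add_sub_cancel_left]
      by_cases hy : ‖y‖ ^ 2 ≤ 64
      · have h2 : ‖y‖ ≤ 8 := by nlinarith [norm_nonneg y]
        rw [hχ1 (x + y) (by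
          rw [mem_closedBall, dist_zero_right] at hx ⊢
          have := norm_add_le x y
          linarith), one_mul]
      · unfold wt0
        rw [if_neg hy]
        simp
    rw [e1, e2, h1, hχ1 x (closedBall_subset_closedBall (by norm_num) hx), one_mul]
  -- the divergence part
  have cD : Continuous (fun y => dx (fun y => χ y * A y) y + dy (fun y => χ y * B y) y) :=
    (cd_d 1 sA).continuous.add (cd_d I sB).continuous
  have sD : HasCompactSupport (fun y => dx (fun y => χ y * A y) y + dy (fun y => χ y * B y) y) :=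
    (cA.fderiv_apply ℝ 1).add (cB.fderiv_apply ℝ I)
  have cM : Continuous (fun y => χ y * (μ y - 1)) := sχ.continuous.mul (h.contμ.sub continuous_const)
  have sM : HasCompactSupport (fun y => χ y * (μ y - 1)) := cχ.mul_right
  have hz0 : ∀ y, y ∉ ball (0 : ℂ) 10 → χ y * A y = 0 ∧ χ y * B y = 0 := fun y hy => by
    rw [hχ0 y hy]; simp
  have hb1 : ∀ y, (χ y * A y) ^ 2 + (χ y * B y) ^ 2 ≤ 1 := by
    intro y
    by_cases hy : y ∈ ball (0 : ℂ) 10
    · have h1 := h.bd y hy
      have h2 : χ y ^ 2 ≤ 1 := pow_le_one₀ χ.nonneg χ.le_one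
      have h3 : 0 ≤ χ y ^ 2 := sq_nonneg _
      nlinarith [sq_nonneg (A y), sq_nonneg (B y)]
    · rw [hχ0 y hy]; simp
  have hK : ∀ᵐ y : ℂ, Kk (y - x) * lap (fun y => χ y * L y) y ≤
      Kk (y - x) * (dx (fun y => χ y * A y) y + dy (fun y => χ y * B y) y) + |Kk (y - x)| * χ y := by
    have hne : ∀ᵐ y : ℂ, y ≠ x := by
      rw [ae_iff]; simp
    filter_upwards [hne] with y hy
    by_cases h8 : 8 ≤ ‖y - x‖
    · rw [Kk_zero h8]; simp
    · have hK0 := Kk_nonpos (sub_ne_zero.2 hy)
      have hy9 : y ∈ ball (0 : ℂ) 9 := by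
        rw [mem_ball, dist_zero_right]
        rw [mem_closedBall, dist_zero_right] at hx
        have h1 : y = (y - x) + x := by ring
        have h2 := norm_add_le (y - x) x
        rw [← h1] at h2
        linarith [not_le.1 h8]
      have hy10 : y ∈ ball (0 : ℂ) 10 := ball_subset_ball (by norm_num) hy9
      rw [(dxy_ev (hχev y hy9 L)).2.2, (dxy_ev (hχev y hy9 A)).1, (dxy_ev (hχev y hy9 B)).2.1,
        h.eq y hy10, hχ1 y (ball_subset_closedBall hy9), abs_of_nonpos hK0]
      have h3 := h.nonneg y hy10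
      nlinarith [mul_nonneg (neg_nonneg.2 hK0) h3]
  have i1 : Integrable (fun y => Kk (y - x) * lap (fun y => χ y * L y) y) :=
    Kk_locint x (PBx.lap_cd sF).continuous (PBx.lap_cs cF)
  have i2 : Integrable (fun y => Kk (y - x) * (dx (fun y => χ y * A y) y + dy (fun y => χ y * B y) y)) :=
    Kk_locint x cD sD
  have i3 : Integrable (fun y => |Kk (y - x)| * χ y) := by
    refine (Kk_locint x sχ.continuous cχ).abs.congr (Eventually.of_forall fun y => ?_)
    simp only [abs_mul, abs_of_nonneg (χ.nonneg (x := y))]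
  have i23 : Integrable (fun y => Kk (y - x) * (dx (fun y => χ y * A y) y + dy (fun y => χ y * B y) y) +
      |Kk (y - x)| * χ y) := i2.add i3
  have hle := integral_mono_ae i1 i23 hK
  rw [integral_add i2 i3, hmain] at hle
  have hKi := Kk_int hx (χ := χ) (fun y => ⟨χ.nonneg, χ.le_one⟩) hχ0
  have e3 : ∫ y, Kk (y - x) * (dx (fun y => χ y * A y) y + dy (fun y => χ y * B y) y) =
      (∫ y, Real.log ‖x - y‖ * (dx (fun y => χ y * A y) y + dy (fun y => χ y * B y) y)) +
      ∫ y, Uk (y - x) * (dx (fun y => χ y * A y) y + dy (fun y => χ y * B y) y) := by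
    have j1 := PBx.log_int cD sD x
    have j2 : Integrable (fun y => Uk (y - x) * (dx (fun y => χ y * A y) y + dy (fun y => χ y * B y) y)) := by
      have : Continuous fun y => Uk (y - x) := Uk_cd.continuous.comp (by fun_prop)
      exact (this.mul cD).integrable_of_hasCompactSupport sD.mul_left
    have j3 : Integrable (fun y => Real.log 8 * (dx (fun y => χ y * A y) y + dy (fun y => χ y * B y) y)) :=
      (cD.integrable_of_hasCompactSupport sD).const_mul _
    have e4 : ∀ y, Kk (y - x) * (dx (fun y => χ y * A y) y + dy (fun y => χ y * B y) y) =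
        Real.log ‖x - y‖ * (dx (fun y => χ y * A y) y + dy (fun y => χ y * B y) y) -
        Real.log 8 * (dx (fun y => χ y * A y) y + dy (fun y => χ y * B y) y) +
        Uk (y - x) * (dx (fun y => χ y * A y) y + dy (fun y => χ y * B y) y) := by
      intro y
      simp only [Kk, norm_sub_rev y x]
      ring
    simp_rw [e4]
    have j13 : Integrable (fun y => Real.log ‖x - y‖ * (dx (fun y => χ y * A y) y +
        dy (fun y => χ y * B y) y) - Real.log 8 * (dx (fun y => χ y * A y) y +
        dy (fun y => χ y * B y) y)) := j1.sub j3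
    rw [integral_add j13 j2, integral_sub j1 j3, integral_const_mul, int_div sA sB cA cB]
    ring
  have h5 := log_div hx10 sA sB cA cB hz0 hb1
  have h6 := Uk_div hx sA sB cA cB hz0 hb1
  have h7 := le_of_abs_le h5
  have h8 := le_of_abs_le h6
  rw [e3] at hle
  linarith

lemma wt0_nonneg (y : ℂ) : 0 ≤ wt0 y := by
  unfold wt0
  split_ifs with h
  · have : 0 ≤ 1 - ‖y‖ ^ 2 / 64 := by linarith
    positivity
  · exact le_rfl

lemma wt0_le (y : ℂ) : wt0 y ≤ 1 / 16 := by
  unfold wt0
  split_ifs with h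
  · have : 0 ≤ ‖y‖ ^ 2 / 64 := by positivity
    linarith
  · norm_num

lemma wt0_cont : Continuous wt0 := by
  have : wt0 = fun y => (1 / 16) * max (1 - ‖y‖ ^ 2 / 64) 0 := by
    funext y
    unfold wt0
    split_ifs with h
    · rw [max_eq_left (by linarith)]
    · rw [max_eq_right (by linarith [not_le.1 h])]
      ring
  rw [this]
  exact continuous_const.mul (Continuous.max (by fun_prop) continuous_const)

/-- the integral of `|L|` -/
lemma Sys.L1 (h : Sys L A B μ) {N J : ℝ} {x : ℂ} (hx : x ∈ closedBall (0 : ℂ) 1) (hN0 : 0 ≤ N)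
    (hN : -N ≤ L x) (hJ : ∫ z in ball (0 : ℂ) 9, max (L z) 0 ≤ J) :
    ∫ z in ball (0 : ℂ) 5, |L z| ≤ 37 * (8200 + 7 * N + J) := by
  have cL : Continuous L := h.smoothL.continuous
  have cW : Continuous fun y => wt0 (y - x) := wt0_cont.comp (by fun_prop)
  have hW0 : ∀ y, y ∉ ball (0 : ℂ) 9 → wt0 (y - x) = 0 := by
    intro y hy
    rw [mem_ball, dist_zero_right, not_lt] at hy
    rw [mem_closedBall, dist_zero_right] at hx
    have h1 := norm_sub_norm_le y x
    have h2 : 8 ≤ ‖y - x‖ := by linarith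
    unfold wt0
    split_ifs with h3
    · have : ‖y - x‖ = 8 := by nlinarith
      rw [this]; norm_num
    · rfl
  have sW : HasCompactSupport fun y => wt0 (y - x) := by
    refine HasCompactSupport.intro (isCompact_closedBall (0 : ℂ) 9) fun y hy => hW0 y fun h1 => ?_
    exact hy (ball_subset_closedBall h1)
  have cP : Continuous fun y => max (L y) 0 := cL.max continuous_const
  have iP : Integrable fun y => wt0 (y - x) * max (L y) 0 :=
    (cW.mul cP).integrable_of_hasCompactSupport sW.mul_right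
  have iL : Integrable fun y => wt0 (y - x) * L y :=
    (cW.mul cL).integrable_of_hasCompactSupport sW.mul_right
  have iA : Integrable fun y => wt0 (y - x) * |L y| :=
    (cW.mul cL.abs).integrable_of_hasCompactSupport sW.mul_right
  have e1 : ∫ y, wt0 (y - x) * |L y| = 2 * (∫ y, wt0 (y - x) * max (L y) 0) - ∫ y, wt0 (y - x) * L y := by
    rw [← integral_const_mul, ← integral_sub (iP.const_mul 2) iL]
    refine integral_congr_ae (Eventually.of_forall fun y => ?_)
    have : |L y| = 2 * max (L y) 0 - L y := by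
      rcases le_total 0 (L y) with h1 | h1
      · rw [abs_of_nonneg h1, max_eq_left h1]; ring
      · rw [abs_of_nonpos h1, max_eq_right h1]; ring
    simp only [this]
    ring
  have e2 : ∫ y, wt0 (y - x) * max (L y) 0 ≤ J / 16 := by
    have h1 : ∫ y, wt0 (y - x) * max (L y) 0 = ∫ y in ball (0 : ℂ) 9, wt0 (y - x) * max (L y) 0 := by
      rw [setIntegral_eq_integral_of_forall_compl_eq_zero]
      intro y hy
      rw [hW0 y hy, zero_mul]
    have h2 : IntegrableOn (fun y => max (L y) 0) (ball (0 : ℂ) 9) :=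
      (cP.continuousOn.integrableOn_compact (isCompact_closedBall (0 : ℂ) 9)).mono_set
        ball_subset_closedBall
    rw [h1]
    have h3 : ∫ y in ball (0 : ℂ) 9, wt0 (y - x) * max (L y) 0 ≤
        ∫ y in ball (0 : ℂ) 9, (1 / 16) * max (L y) 0 := by
      refine setIntegral_mono iP.integrableOn (h2.const_mul _) fun y => ?_
      exact mul_le_mul_of_nonneg_right (wt0_le _) (le_max_right _ _)
    rw [integral_const_mul] at h3
    linarith
  have hJ0 : 0 ≤ J := le_trans (setIntegral_nonneg measurableSet_ball fun y _ => le_max_right _ _) hJ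
  have e3 : (7 / 256) * ∫ z in ball (0 : ℂ) 5, |L z| ≤ ∫ y, wt0 (y - x) * |L y| := by
    rw [← integral_const_mul]
    have h2 : IntegrableOn (fun y => |L y|) (ball (0 : ℂ) 5) :=
      (cL.abs.continuousOn.integrableOn_compact (isCompact_closedBall (0 : ℂ) 5)).mono_set
        ball_subset_closedBall
    refine (setIntegral_mono_on (h2.const_mul _) iA.integrableOn measurableSet_ball fun y hy => ?_).trans
      (setIntegral_le_integral iA (Eventually.of_forall fun y =>
        mul_nonneg (wt0_nonneg _) (abs_nonneg _)))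
    refine mul_le_mul_of_nonneg_right ?_ (abs_nonneg _)
    rw [mem_ball, dist_zero_right] at hy
    rw [mem_closedBall, dist_zero_right] at hx
    have h3 : ‖y - x‖ ≤ 6 := by linarith [norm_sub_le y x]
    have h4 : ‖y - x‖ ^ 2 ≤ 36 := by nlinarith [norm_nonneg (y - x)]
    unfold wt0
    rw [if_pos (by linarith)]
    linarith
  have e4 := h.mean hx
  have hpi := Real.pi_pos
  have hpi2 := Real.pi_lt_d2
  have e5 : -(2 * Real.pi * L x) ≤ 7 * N := by nlinarith
  linarith

end Run7.h341.NLen
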