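import Pool.Agent.Run7.h341.NLen.TE2c

/-!
# E2, fourth part: the mass of `μ` and the integral of `L²`
-/

set_option autoImplicit false
open MeasureTheory Filter Topology Complex Metric
open scoped ContDiff

namespace Run7.h341.NLen

open Pool.Agent.Q73.NL Pool.Agent.Q73.AD Pool.Agent.Helper676.CSLog PBx

lemma exists_cut1 : ∃ (χ : ℂ → ℝ) (k : ℝ), Cut χ k ∧ ∀ x, χ x ≤ 1 := by
  let f : ContDiffBump (0 : ℂ) := ⟨4, 9 / 2, by norm_num, by norm_num⟩
  have hcd : ContDiff ℝ ∞ (f : ℂ → ℝ) := f.contDiff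
  obtain ⟨c, hc0, hc⟩ := bdd_derivs hcd f.hasCompactSupport
  refine ⟨f, Real.sqrt c, ⟨hcd, f.hasCompactSupport, fun x => f.nonneg, fun x hx => ?_, ?_,
    Real.sqrt_nonneg _, fun y => ?_, fun y => ?_⟩, fun x => f.le_one⟩
  · exact f.one_of_mem_closedBall (ball_subset_closedBall hx)
  · rw [f.tsupport_eq]
  · refine Real.le_sqrt_of_sq_le ?_
    have h1 := (hc y).1
    have h2 : ‖ga (f : ℂ → ℝ) y‖ ^ 2 = dx f y ^ 2 + dy f y ^ 2 := by
      rw [← Complex.normSq_eq_norm_sq, Complex.normSq_apply]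
      unfold ga
      simp
      ring
    rw [h2]
    exact h1
  · refine Real.le_sqrt_of_sq_le ?_
    rw [sq_abs]
    exact (hc y).2

lemma Cut.out {χ : ℂ → ℝ} {k : ℝ} (h : Cut χ k) {y : ℂ} (hy : y ∉ ball (0 : ℂ) 5) :
    χ y = 0 ∧ dx χ y = 0 ∧ dy χ y = 0 ∧ lap χ y = 0 := by
  have h1 : y ∉ tsupport χ := by
    intro h2
    apply hy
    have h3 := h.supp h2
    rw [mem_closedBall] at h3
    rw [mem_ball]
    linarith
  exact ⟨image_eq_zero_of_notMem_tsupport h1, (lap_zero_of h1).1, (lap_zero_of h1).2.1,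
    (lap_zero_of h1).2.2⟩

lemma Cut.grad {χ : ℂ → ℝ} {k : ℝ} (h : Cut χ k) (y : ℂ) : √(dx χ y ^ 2 + dy χ y ^ 2) ≤ k := by
  have h1 := h.ga_le y
  have h2 : ‖ga χ y‖ ^ 2 = dx χ y ^ 2 + dy χ y ^ 2 := by
    rw [← Complex.normSq_eq_norm_sq, Complex.normSq_apply]
    unfold ga
    simp
    ring
  rw [← h2, Real.sqrt_sq (norm_nonneg _)]
  exact h1

lemma vol_ball5 : volume.real (ball (0 : ℂ) 5) ≤ 79 := by
  rw [Measure.real, Complex.volume_ball]
  have := Real.pi_lt_d2
  simp [ENNReal.toReal_mul]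
  nlinarith

lemma vol_ball3 : volume.real (ball (0 : ℂ) 3) ≤ 29 := by
  rw [Measure.real, Complex.volume_ball]
  have := Real.pi_lt_d2
  simp [ENNReal.toReal_mul]
  nlinarith

/-- bounded weights supported in the disc of radius `r` -/
lemma int_wt {V f : ℂ → ℝ} {b r : ℝ} (hV : Continuous V) (hfb : ∀ y, |f y| ≤ b)
    (hf0 : ∀ y, y ∉ ball (0 : ℂ) r → f y = 0) : |∫ y, V y * f y| ≤ b * ∫ y in ball (0 : ℂ) r, |V y| := by
  have hi : IntegrableOn (fun y => |V y|) (ball (0 : ℂ) r) :=
    (hV.abs.continuousOn.integrableOn_compact (isCompact_closedBall (0 : ℂ) r)).mono_set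
      ball_subset_closedBall
  have hg : Integrable ((ball (0 : ℂ) r).indicator (fun y => b * |V y|)) :=
    (integrable_indicator_iff measurableSet_ball).2 (hi.const_mul b)
  have hle : ∀ y, ‖V y * f y‖ ≤ (ball (0 : ℂ) r).indicator (fun y => b * |V y|) y := by
    intro y
    by_cases hy : y ∈ ball (0 : ℂ) r
    · rw [Set.indicator_of_mem hy, norm_mul, Real.norm_eq_abs, Real.norm_eq_abs, mul_comm]
      exact mul_le_mul_of_nonneg_right (hfb y) (abs_nonneg _)
    · rw [Set.indicator_of_notMem hy, hf0 y hy]; simp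
  have h := norm_integral_le_of_norm_le hg (Eventually.of_forall hle)
  rw [integral_indicator measurableSet_ball, integral_const_mul] at h
  exact h

variable {L A B μ : ℂ → ℝ}

/-- the mass of `μ` -/
lemma Sys.mass (h : Sys L A B μ) {χ : ℂ → ℝ} {k : ℝ} (hχ : Cut χ k) (h1 : ∀ x, χ x ≤ 1) :
    ∫ y, χ y * μ y ≤ k * (∫ z in ball (0 : ℂ) 5, |L z|) + 79 * k + 79 := by
  have sA : ContDiff ℝ ∞ (fun y => χ y * A y) := hχ.cd.mul h.smoothA
  have cA : HasCompactSupport (fun y => χ y * A y) := hχ.cs.mul_right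
  have sB : ContDiff ℝ ∞ (fun y => χ y * B y) := hχ.cd.mul h.smoothB
  have cB : HasCompactSupport (fun y => χ y * B y) := hχ.cs.mul_right
  have e1 : ∀ y, χ y * μ y = lap L y * χ y - (dx (fun y => χ y * A y) y + dy (fun y => χ y * B y) y) +
      (dx χ y * A y + dy χ y * B y) + χ y := by
    intro y
    by_cases hy : y ∈ ball (0 : ℂ) 5
    · have e2 : dx (fun y => χ y * A y) y = dx χ y * A y + χ y * dx A y :=
        fd_mul 1 (da_of hχ.cd y) (da_of h.smoothA y)
      have e3 : dy (fun y => χ y * B y) y = dy χ y * B y + χ y * dy B y :=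
        fd_mul I (da_of hχ.cd y) (da_of h.smoothB y)
      rw [e2, e3, h.eq y (ball_subset_ball (by norm_num) hy)]
      ring
    · have e2 : dx (fun y => χ y * A y) y = dx χ y * A y + χ y * dx A y :=
        fd_mul 1 (da_of hχ.cd y) (da_of h.smoothA y)
      have e3 : dy (fun y => χ y * B y) y = dy χ y * B y + χ y * dy B y :=
        fd_mul I (da_of hχ.cd y) (da_of h.smoothB y)
      obtain ⟨h2, h3, h4, -⟩ := Cut.out hχ hy
      rw [e2, e3, h2, h3, h4]
      ring
  have i1 : Integrable (fun y => lap L y * χ y) :=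
    ((lap_cd h.smoothL).continuous.mul hχ.cd.continuous).integrable_of_hasCompactSupport hχ.cs.mul_left
  have i2 : Integrable (fun y => dx (fun y => χ y * A y) y + dy (fun y => χ y * B y) y) :=
    (int_der (cd1 sA) cA 1).1.add (int_der (cd1 sB) cB I).1
  have i3 : Integrable (fun y => dx χ y * A y + dy χ y * B y) := by
    have j1 : Integrable (fun y => dx χ y * A y) :=
      ((cd_d 1 hχ.cd).continuous.mul h.smoothA.continuous).integrable_of_hasCompactSupport
        (hχ.cs.fderiv_apply ℝ 1).mul_right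
    have j2 : Integrable (fun y => dy χ y * B y) :=
      ((cd_d I hχ.cd).continuous.mul h.smoothB.continuous).integrable_of_hasCompactSupport
        (hχ.cs.fderiv_apply ℝ I).mul_right
    exact j1.add j2
  have i4 : Integrable χ := hχ.cd.continuous.integrable_of_hasCompactSupport hχ.cs
  have i12 : Integrable (fun y => lap L y * χ y - (dx (fun y => χ y * A y) y +
      dy (fun y => χ y * B y) y)) := i1.sub i2
  have i123 : Integrable (fun y => lap L y * χ y - (dx (fun y => χ y * A y) y +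
      dy (fun y => χ y * B y) y) + (dx χ y * A y + dy χ y * B y)) := i12.add i3
  simp_rw [e1]
  rw [integral_add i123 i4, integral_add i12 i3, integral_sub i1 i2, int_div sA sB cA cB,
    ← PBx.green h.smoothL hχ.cd hχ.cs]
  have b1 := int_wt h.smoothL.continuous hχ.lap_le (fun y hy => (Cut.out hχ hy).2.2.2)
  have b2 : ∫ y, (dx χ y * A y + dy χ y * B y) ≤ k * 79 := by
    have hpt : ∀ y, ‖dx χ y * A y + dy χ y * B y‖ ≤ (ball (0 : ℂ) 5).indicator (fun _ => k) y := by
      intro y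
      by_cases hy : y ∈ ball (0 : ℂ) 5
      · rw [Set.indicator_of_mem hy, Real.norm_eq_abs]
        refine (cs2 _ _ _ _).trans ?_
        have h3 : √(A y ^ 2 + B y ^ 2) ≤ 1 := by
          rw [Real.sqrt_le_one]
          exact h.bd y (ball_subset_ball (by norm_num) hy)
        calc _ ≤ k * 1 := mul_le_mul (Cut.grad hχ y) h3 (Real.sqrt_nonneg _) hχ.k0
          _ = k := mul_one _
      · obtain ⟨h2, h3, h4, -⟩ := Cut.out hχ hy
        rw [Set.indicator_of_notMem hy, h3, h4]
        simp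
    have h6 := norm_integral_le_of_norm_le (μ := volume) ((integrable_indicator_iff measurableSet_ball).2
      (integrableOn_const measure_ball_lt_top.ne)) (Eventually.of_forall hpt)
    rw [integral_indicator measurableSet_ball, setIntegral_const, smul_eq_mul] at h6
    refine (le_abs_self _).trans (h6.trans ?_)
    rw [mul_comm]
    exact mul_le_mul_of_nonneg_left vol_ball5 hχ.k0
  have b3 : ∫ y, χ y ≤ 79 := by
    have hpt : ∀ y, ‖χ y‖ ≤ (ball (0 : ℂ) 5).indicator (fun _ => 1) y := by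
      intro y
      by_cases hy : y ∈ ball (0 : ℂ) 5
      · rw [Set.indicator_of_mem hy, Real.norm_eq_abs, abs_of_nonneg (hχ.nonneg y)]
        exact h1 y
      · rw [Set.indicator_of_notMem hy, (Cut.out hχ hy).1]
        simp
    have h6 := norm_integral_le_of_norm_le (μ := volume) ((integrable_indicator_iff measurableSet_ball).2
      (integrableOn_const measure_ball_lt_top.ne)) (Eventually.of_forall hpt)
    rw [integral_indicator measurableSet_ball, setIntegral_const, smul_eq_mul, mul_one] at h6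
    exact (le_abs_self _).trans (h6.trans vol_ball5)
  have b4 := le_of_abs_le b1
  linarith

/-- the square of the logarithm -/
lemma log_sq_le {t : ℝ} (ht : 0 ≤ t) : Real.log t ^ 2 ≤ 4 * (t + 2 + t⁻¹) := by
  have h1 := abs_log_le (Real.sqrt_nonneg t)
  rw [Real.log_sqrt ht] at h1
  rcases ht.eq_or_lt with rfl | h0
  · simp
  have h2 : 0 < √t := Real.sqrt_pos.2 h0
  have h3 : √t ^ 2 = t := Real.sq_sqrt ht
  have h4 : (√t + (√t)⁻¹) ^ 2 = t + 2 + t⁻¹ := by
    have : (√t)⁻¹ ^ 2 = t⁻¹ := by rw [inv_pow, h3]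
    have h5 : √t * (√t)⁻¹ = 1 := mul_inv_cancel₀ h2.ne'
    nlinarith
  have h6 : (Real.log t / 2) ^ 2 ≤ (√t + (√t)⁻¹) ^ 2 := by
    rw [← sq_abs]
    exact pow_le_pow_left₀ (abs_nonneg _) h1 2
  rw [h4] at h6
  nlinarith

lemma meas_log (x : ℂ) : Measurable fun y : ℂ => Real.log ‖x - y‖ :=
  Real.measurable_log.comp (measurable_const.sub measurable_id).norm

lemma log2_int {x : ℂ} (hx : x ∈ ball (0 : ℂ) 10) :
    IntegrableOn (fun y => Real.log ‖x - y‖ ^ 2) (ball (0 : ℂ) 10) ∧
    ∫ y in ball (0 : ℂ) 10, Real.log ‖x - y‖ ^ 2 ≤ 28224 := by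
  have i1 := inv_int hx
  have i2 : IntegrableOn (fun _ : ℂ => (22 : ℝ)) (ball (0 : ℂ) 10) :=
    integrableOn_const measure_ball_lt_top.ne
  have i3 : IntegrableOn (fun y => 4 * (22 + ‖x - y‖⁻¹)) (ball (0 : ℂ) 10) := (i2.add i1.1).const_mul 4
  have hle : ∀ y ∈ ball (0 : ℂ) 10, Real.log ‖x - y‖ ^ 2 ≤ 4 * (22 + ‖x - y‖⁻¹) := by
    intro y hy
    rw [mem_ball, dist_zero_right] at hx hy
    have h1 := norm_sub_le x y
    have h2 := log_sq_le (norm_nonneg (x - y))
    linarith
  have i4 : IntegrableOn (fun y => Real.log ‖x - y‖ ^ 2) (ball (0 : ℂ) 10) := by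
    refine i3.mono' ((meas_log x).pow_const 2).aestronglyMeasurable ?_
    refine (ae_restrict_iff' measurableSet_ball).2 (Eventually.of_forall fun y hy => ?_)
    rw [Real.norm_eq_abs, abs_of_nonneg (sq_nonneg _)]
    exact hle y hy
  refine ⟨i4, (setIntegral_mono_on i4 i3 measurableSet_ball hle).trans ?_⟩
  rw [integral_const_mul, integral_add i2 i1.1, setIntegral_const, smul_eq_mul]
  have := vol_ball10
  linarith [i1.2]

lemma log1_int {x : ℂ} (hx : x ∈ ball (0 : ℂ) 10) :
    IntegrableOn (fun y => |Real.log ‖x - y‖|) (ball (0 : ℂ) 10) ∧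
    ∫ y in ball (0 : ℂ) 10, |Real.log ‖x - y‖| ≤ 6426 := by
  have i1 := inv_int hx
  have i2 : IntegrableOn (fun _ : ℂ => (20 : ℝ)) (ball (0 : ℂ) 10) :=
    integrableOn_const measure_ball_lt_top.ne
  have i3 : IntegrableOn (fun y => 20 + ‖x - y‖⁻¹) (ball (0 : ℂ) 10) := i2.add i1.1
  have hle : ∀ y ∈ ball (0 : ℂ) 10, |Real.log ‖x - y‖| ≤ 20 + ‖x - y‖⁻¹ := by
    intro y hy
    rw [mem_ball, dist_zero_right] at hx hy
    have h1 := norm_sub_le x y
    have h2 := abs_log_le (norm_nonneg (x - y))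
    linarith
  have i4 : IntegrableOn (fun y => |Real.log ‖x - y‖|) (ball (0 : ℂ) 10) := by
    refine i3.mono' (meas_log x).norm.aestronglyMeasurable ?_
    refine (ae_restrict_iff' measurableSet_ball).2 (Eventually.of_forall fun y hy => ?_)
    rw [Real.norm_eq_abs, abs_abs]
    exact hle y hy
  refine ⟨i4, (setIntegral_mono_on i4 i3 measurableSet_ball hle).trans ?_⟩
  rw [integral_add i2 i1.1, setIntegral_const, smul_eq_mul]
  have := vol_ball10
  linarith [i1.2]

/-- the logarithmic kernel with a bounded density supported in the disc -/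
lemma log_wt {x : ℂ} (hx : x ∈ ball (0 : ℂ) 10) {f : ℂ → ℝ} {b : ℝ} (hb : 0 ≤ b)
    (hfb : ∀ y, |f y| ≤ b) (hf0 : ∀ y, y ∉ ball (0 : ℂ) 10 → f y = 0) :
    |∫ y, Real.log ‖x - y‖ * f y| ≤ b * 6426 := by
  have hi := log1_int hx
  have hg : Integrable ((ball (0 : ℂ) 10).indicator (fun y => b * |Real.log ‖x - y‖|)) :=
    (integrable_indicator_iff measurableSet_ball).2 (hi.1.const_mul b)
  have hle : ∀ y, ‖Real.log ‖x - y‖ * f y‖ ≤
      (ball (0 : ℂ) 10).indicator (fun y => b * |Real.log ‖x - y‖|) y := by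
    intro y
    by_cases hy : y ∈ ball (0 : ℂ) 10
    · rw [Set.indicator_of_mem hy, norm_mul, Real.norm_eq_abs, Real.norm_eq_abs, mul_comm]
      exact mul_le_mul_of_nonneg_right (hfb y) (abs_nonneg _)
    · rw [Set.indicator_of_notMem hy, hf0 y hy]; simp
  have h := norm_integral_le_of_norm_le hg (Eventually.of_forall hle)
  rw [integral_indicator measurableSet_ball, integral_const_mul] at h
  exact h.trans (mul_le_mul_of_nonneg_left hi.2 hb)

end Run7.h341.NLen
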