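import Pool.Agent.Run7.h341.NLen.TE2d

/-!
# E2, fifth part: the representation of `L` and the integral of `L²`
-/

set_option autoImplicit false
open MeasureTheory Filter Topology Complex Metric
open scoped ContDiff

namespace Run7.h341.NLen

open Pool.Agent.Q73.NL Pool.Agent.Q73.AD Pool.Agent.Helper676.CSLog PBx

variable {L A B μ : ℂ → ℝ}

/-- the representation -/
lemma Sys.repr (h : Sys L A B μ) {χ : ℂ → ℝ} {k : ℝ} (hχ : Cut χ k) (h1 : ∀ x, χ x ≤ 1) {x : ℂ}
    (hx : x ∈ ball (0 : ℂ) 3) :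
    |L x| ≤ (6552 + 6426 * k + 5 * k * ∫ z in ball (0 : ℂ) 5, |L z|) +
      ∫ y, |Real.log ‖x - y‖| * (χ y * μ y) := by
  have hx10 : x ∈ ball (0 : ℂ) 10 := ball_subset_ball (by norm_num) hx
  have sA : ContDiff ℝ ∞ (fun y => χ y * A y) := hχ.cd.mul h.smoothA
  have cA : HasCompactSupport (fun y => χ y * A y) := hχ.cs.mul_right
  have sB : ContDiff ℝ ∞ (fun y => χ y * B y) := hχ.cd.mul h.smoothB
  have cB : HasCompactSupport (fun y => χ y * B y) := hχ.cs.mul_right
  have e1 : ∀ y, Real.log ‖x - y‖ * (χ y * lap L y) =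
      Real.log ‖x - y‖ * (dx (fun y => χ y * A y) y + dy (fun y => χ y * B y) y) -
      Real.log ‖x - y‖ * (dx χ y * A y + dy χ y * B y) + Real.log ‖x - y‖ * (χ y * μ y) -
      Real.log ‖x - y‖ * χ y := by
    intro y
    have e2 : dx (fun y => χ y * A y) y = dx χ y * A y + χ y * dx A y :=
      fd_mul 1 (da_of hχ.cd y) (da_of h.smoothA y)
    have e3 : dy (fun y => χ y * B y) y = dy χ y * B y + χ y * dy B y :=
      fd_mul I (da_of hχ.cd y) (da_of h.smoothB y)
    by_cases hy : y ∈ ball (0 : ℂ) 5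
    · rw [e2, e3, h.eq y (ball_subset_ball (by norm_num) hy)]
      ring
    · obtain ⟨h2, h3, h4, -⟩ := Cut.out hχ hy
      rw [e2, e3, h2, h3, h4]
      ring
  have cD : Continuous (fun y => dx (fun y => χ y * A y) y + dy (fun y => χ y * B y) y) :=
    (cd_d 1 sA).continuous.add (cd_d I sB).continuous
  have sD : HasCompactSupport (fun y => dx (fun y => χ y * A y) y + dy (fun y => χ y * B y) y) :=
    (cA.fderiv_apply ℝ 1).add (cB.fderiv_apply ℝ I)
  have cE : Continuous (fun y => dx χ y * A y + dy χ y * B y) :=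
    ((cd_d 1 hχ.cd).continuous.mul h.smoothA.continuous).add
      ((cd_d I hχ.cd).continuous.mul h.smoothB.continuous)
  have sE : HasCompactSupport (fun y => dx χ y * A y + dy χ y * B y) :=
    ((hχ.cs.fderiv_apply ℝ 1).mul_right).add ((hχ.cs.fderiv_apply ℝ I).mul_right)
  have cM : Continuous (fun y => χ y * μ y) := hχ.cd.continuous.mul h.contμ
  have sM : HasCompactSupport (fun y => χ y * μ y) := hχ.cs.mul_right
  have i1 := PBx.log_int cD sD x
  have i2 := PBx.log_int cE sE x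
  have i3 := PBx.log_int cM sM x
  have i4 := PBx.log_int hχ.cd.continuous hχ.cs x
  have i12 : Integrable (fun y => Real.log ‖x - y‖ * (dx (fun y => χ y * A y) y +
      dy (fun y => χ y * B y) y) - Real.log ‖x - y‖ * (dx χ y * A y + dy χ y * B y)) := i1.sub i2
  have i123 : Integrable (fun y => Real.log ‖x - y‖ * (dx (fun y => χ y * A y) y +
      dy (fun y => χ y * B y) y) - Real.log ‖x - y‖ * (dx χ y * A y + dy χ y * B y) +
      Real.log ‖x - y‖ * (χ y * μ y)) := i12.add i3
  have hr := hχ.repr h.smoothL hx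
  simp_rw [e1] at hr
  rw [integral_sub i123 i4, integral_add i12 i3, integral_sub i1 i2] at hr
  have hout : ∀ y, y ∉ ball (0 : ℂ) 10 → y ∉ ball (0 : ℂ) 5 := fun y hy h2 =>
    hy (ball_subset_ball (by norm_num) h2)
  have b1 : |∫ y, Real.log ‖x - y‖ * (dx (fun y => χ y * A y) y + dy (fun y => χ y * B y) y)| ≤ 126 := by
    refine log_div hx10 sA sB cA cB (fun y hy => ?_) fun y => ?_
    · rw [(Cut.out hχ (hout y hy)).1]; simp
    · by_cases hy : y ∈ ball (0 : ℂ) 10
      · have h2 := h.bd y hy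
        have h3 : χ y ^ 2 ≤ 1 := pow_le_one₀ (hχ.nonneg y) (h1 y)
        nlinarith [sq_nonneg (A y), sq_nonneg (B y), sq_nonneg (χ y)]
      · rw [(Cut.out hχ (hout y hy)).1]; simp
  have b2 : |∫ y, Real.log ‖x - y‖ * (dx χ y * A y + dy χ y * B y)| ≤ k * 6426 := by
    refine log_wt hx10 hχ.k0 (fun y => ?_) fun y hy => ?_
    · by_cases hy : y ∈ ball (0 : ℂ) 10
      · refine (cs2 _ _ _ _).trans ?_
        have h3 : √(A y ^ 2 + B y ^ 2) ≤ 1 := by
          rw [Real.sqrt_le_one]
          exact h.bd y hy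
        calc _ ≤ k * 1 := mul_le_mul (Cut.grad hχ y) h3 (Real.sqrt_nonneg _) hχ.k0
          _ = k := mul_one _
      · obtain ⟨h2, h3, h4, -⟩ := Cut.out hχ (hout y hy)
        rw [h3, h4]
        simpa using hχ.k0
    · obtain ⟨h2, h3, h4, -⟩ := Cut.out hχ (hout y hy)
      rw [h3, h4]
      simp
  have b3 : |∫ y, Real.log ‖x - y‖ * (χ y * μ y)| ≤ ∫ y, |Real.log ‖x - y‖| * (χ y * μ y) := by
    refine (abs_integral_le_integral_abs).trans (le_of_eq ?_)
    refine integral_congr_ae (Eventually.of_forall fun y => ?_)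
    simp only [abs_mul]
    by_cases hy : y ∈ ball (0 : ℂ) 5
    · rw [abs_of_nonneg (hχ.nonneg y), abs_of_nonneg (h.nonneg y (ball_subset_ball (by norm_num) hy))]
    · rw [(Cut.out hχ hy).1]; simp
  have b4 : |∫ y, Real.log ‖x - y‖ * χ y| ≤ 1 * 6426 := by
    refine log_wt hx10 zero_le_one (fun y => ?_) fun y hy => (Cut.out hχ (hout y hy)).1
    rw [abs_of_nonneg (hχ.nonneg y)]
    exact h1 y
  have b5 : |∫ y, L y * KK χ x y| ≤ 5 * k * ∫ z in ball (0 : ℂ) 5, |L z| := by
    refine int_wt h.smoothL.continuous (fun y => hχ.KK_le hx y) fun y hy => ?_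
    unfold KK
    have h2 : ga χ y = 0 := by
      unfold ga
      rw [(Cut.out hχ hy).2.1, (Cut.out hχ hy).2.2.1]
      simp
    rw [h2, (Cut.out hχ hy).2.2.2]
    simp
  have hpi := Real.pi_gt_three
  have h2 : |L x| ≤ |2 * Real.pi * L x| := by
    rw [abs_mul, abs_of_pos (by positivity : 0 < 2 * Real.pi)]
    have := abs_nonneg (L x)
    nlinarith
  refine h2.trans ?_
  rw [hr]
  rw [abs_le] at b1 b2 b3 b4 b5 ⊢
  constructor <;> linarith [b1.1, b1.2, b2.1, b2.2, b3.1, b3.2, b4.1, b4.2, b5.1, b5.2]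

/-- Cauchy-Schwarz with a weight -/
lemma cs_int {f m : ℂ → ℝ} (hm0 : ∀ y, 0 ≤ m y) (i0 : Integrable m) (i1 : Integrable fun y => f y * m y)
    (i2 : Integrable fun y => f y ^ 2 * m y) :
    (∫ y, f y * m y) ^ 2 ≤ (∫ y, m y) * ∫ y, f y ^ 2 * m y := by
  have h : ∀ t : ℝ, 0 ≤ (∫ y, m y) * (t * t) + (-2 * ∫ y, f y * m y) * t + ∫ y, f y ^ 2 * m y := by
    intro t
    have h1 : 0 ≤ ∫ y, (f y - t) ^ 2 * m y := integral_nonneg fun y => mul_nonneg (sq_nonneg _) (hm0 y)
    have h2 : ∫ y, (f y - t) ^ 2 * m y = (∫ y, f y ^ 2 * m y) - 2 * t * (∫ y, f y * m y) +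
        t ^ 2 * ∫ y, m y := by
      rw [← integral_const_mul, ← integral_const_mul, ← integral_sub i2 (i1.const_mul _)]
      have i3 : Integrable fun y => f y ^ 2 * m y - 2 * t * (f y * m y) := i2.sub (i1.const_mul _)
      rw [← integral_add i3 (i0.const_mul _)]
      refine integral_congr_ae (Eventually.of_forall fun y => ?_)
      simp only
      ring
    rw [h2] at h1
    linarith
  have h3 := discrim_le_zero h
  unfold discrim at h3
  nlinarith

/-- the integral of `L²` -/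
lemma Sys.L2 (h : Sys L A B μ) {χ : ℂ → ℝ} {k D m : ℝ} (hχ : Cut χ k) (h1 : ∀ x, χ x ≤ 1)
    (hD : 6552 + 6426 * k + 5 * k * (∫ z in ball (0 : ℂ) 5, |L z|) ≤ D)
    (hm : ∫ y, χ y * μ y ≤ m) :
    ∫ z in ball (0 : ℂ) 3, L z ^ 2 ≤ 58 * D ^ 2 + 56448 * m ^ 2 := by
  obtain ⟨g, hg⟩ : ∃ g : ℂ → ℝ, g = fun y => χ y * μ y := ⟨_, rfl⟩
  have cg : Continuous g := by rw [hg]; exact hχ.cd.continuous.mul h.contμ
  have sg : HasCompactSupport g := by rw [hg]; exact hχ.cs.mul_right
  have g0 : ∀ y, 0 ≤ g y := by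
    intro y
    rw [hg]
    by_cases hy : y ∈ ball (0 : ℂ) 5
    · exact mul_nonneg (hχ.nonneg y) (h.nonneg y (ball_subset_ball (by norm_num) hy))
    · simp only [(Cut.out hχ hy).1, zero_mul, le_refl]
  have gout : ∀ y, y ∉ ball (0 : ℂ) 10 → g y = 0 := by
    intro y hy
    rw [hg]
    have : y ∉ ball (0 : ℂ) 5 := fun h2 => hy (ball_subset_ball (by norm_num) h2)
    simp only [(Cut.out hχ this).1, zero_mul]
  have ig : Integrable g := cg.integrable_of_hasCompactSupport sg
  obtain ⟨gb, hgb⟩ := cg.bounded_above_of_compact_support sg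
  have gb0 : 0 ≤ gb := (norm_nonneg _).trans (hgb 0)
  -- the iterated integral
  have hmeas : Measurable (fun p : ℂ × ℂ => Real.log ‖p.1 - p.2‖ ^ 2 * g p.2) :=
    ((Real.measurable_log.comp (measurable_fst.sub measurable_snd).norm).pow_const 2).mul
      (cg.measurable.comp measurable_snd)
  have hsec : ∀ y, Integrable (fun x => Real.log ‖x - y‖ ^ 2 * g y) (volume.restrict (ball (0 : ℂ) 3)) ∧
      ∫ x in ball (0 : ℂ) 3, ‖Real.log ‖x - y‖ ^ 2 * g y‖ ≤ 28224 * g y := by
    intro y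
    by_cases hy : y ∈ ball (0 : ℂ) 10
    · have h2 := log2_int hy
      have h3 : IntegrableOn (fun x => Real.log ‖x - y‖ ^ 2) (ball (0 : ℂ) 10) := by
        refine h2.1.congr_fun (fun x _ => ?_) measurableSet_ball
        simp only [norm_sub_rev]
      have h4 : IntegrableOn (fun x => Real.log ‖x - y‖ ^ 2) (ball (0 : ℂ) 3) :=
        h3.mono_set (ball_subset_ball (by norm_num))
      refine ⟨h4.mul_const _, ?_⟩
      have e1 : ∀ x, ‖Real.log ‖x - y‖ ^ 2 * g y‖ = Real.log ‖x - y‖ ^ 2 * g y := fun x => by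
        rw [Real.norm_eq_abs, abs_of_nonneg (mul_nonneg (sq_nonneg _) (g0 y))]
      simp_rw [e1]
      rw [integral_mul_const]
      refine mul_le_mul_of_nonneg_right ?_ (g0 y)
      refine le_trans ?_ h2.2
      simp_rw [norm_sub_rev y]
      exact setIntegral_mono_set h3 (Eventually.of_forall fun x => sq_nonneg _)
        (Eventually.of_forall (ball_subset_ball (by norm_num)))
    · simp [gout y hy]
  have hprod : Integrable (fun p : ℂ × ℂ => Real.log ‖p.1 - p.2‖ ^ 2 * g p.2)
      ((volume.restrict (ball (0 : ℂ) 3)).prod volume) := by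
    rw [integrable_prod_iff' hmeas.aestronglyMeasurable]
    refine ⟨Eventually.of_forall fun y => (hsec y).1, ?_⟩
    refine (ig.const_mul 28224).mono' ?_ (Eventually.of_forall fun y => ?_)
    · exact hmeas.norm.aestronglyMeasurable.prod_swap.integral_prod_right'
    · rw [Real.norm_eq_abs, abs_of_nonneg (integral_nonneg fun x => norm_nonneg _)]
      exact (hsec y).2
  have hR : IntegrableOn (fun x => ∫ y, Real.log ‖x - y‖ ^ 2 * g y) (ball (0 : ℂ) 3) :=
    hprod.integral_prod_left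
  have hRle : ∫ x in ball (0 : ℂ) 3, ∫ y, Real.log ‖x - y‖ ^ 2 * g y ≤ 28224 * ∫ y, g y := by
    rw [integral_integral_swap hprod, ← integral_const_mul]
    refine integral_mono hprod.integral_prod_right (ig.const_mul _) fun y => ?_
    refine le_trans (le_of_eq ?_) (hsec y).2
    refine integral_congr_ae (Eventually.of_forall fun x => ?_)
    simp only
    rw [Real.norm_eq_abs, abs_of_nonneg (mul_nonneg (sq_nonneg _) (g0 y))]
  -- the pointwise inequality
  have hI0 : 0 ≤ ∫ z in ball (0 : ℂ) 5, |L z| := setIntegral_nonneg measurableSet_ball fun y _ => abs_nonneg _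
  have hk0 := hχ.k0
  have hD0 : 0 ≤ D := le_trans (by positivity) hD
  have hg0 : 0 ≤ ∫ y, g y := integral_nonneg g0
  have hgm : ∫ y, g y ≤ m := by rw [hg]; exact hm
  have hpt : ∀ x ∈ ball (0 : ℂ) 3, L x ^ 2 ≤ 2 * D ^ 2 +
      2 * (∫ y, g y) * ∫ y, Real.log ‖x - y‖ ^ 2 * g y := by
    intro x hx
    have hx10 : x ∈ ball (0 : ℂ) 10 := ball_subset_ball (by norm_num) hx
    have h2 := h.repr hχ h1 hx
    have j1 : Integrable (fun y => |Real.log ‖x - y‖| * g y) := by
      refine (PBx.log_int cg sg x).abs.congr (Eventually.of_forall fun y => ?_)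
      simp only [abs_mul, abs_of_nonneg (g0 y)]
    have j2 : Integrable (fun y => |Real.log ‖x - y‖| ^ 2 * g y) := by
      simp_rw [sq_abs]
      have h3 : Integrable ((ball (0 : ℂ) 10).indicator (fun y => Real.log ‖x - y‖ ^ 2 * gb)) :=
        (integrable_indicator_iff measurableSet_ball).2 ((log2_int hx10).1.mul_const gb)
      refine h3.mono' (((meas_log x).pow_const 2).mul cg.measurable).aestronglyMeasurable
        (Eventually.of_forall fun y => ?_)
      by_cases hy : y ∈ ball (0 : ℂ) 10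
      · rw [Set.indicator_of_mem hy, norm_mul, Real.norm_eq_abs, abs_of_nonneg (sq_nonneg _)]
        exact mul_le_mul_of_nonneg_left (hgb y) (sq_nonneg _)
      · rw [Set.indicator_of_notMem hy, gout y hy]; simp
    have h4 := cs_int g0 ig j1 j2
    simp_rw [sq_abs] at h4
    have e2 : ∫ y, |Real.log ‖x - y‖| * (χ y * μ y) = ∫ y, |Real.log ‖x - y‖| * g y := by
      rw [hg]
    rw [e2] at h2
    have h5 : |L x| ≤ D + ∫ y, |Real.log ‖x - y‖| * g y := h2.trans (by linarith)
    have h6 : 0 ≤ ∫ y, |Real.log ‖x - y‖| * g y := integral_nonneg fun y => mul_nonneg (abs_nonneg _) (g0 y)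
    have h7 : L x ^ 2 ≤ (D + ∫ y, |Real.log ‖x - y‖| * g y) ^ 2 := by
      rw [← sq_abs]
      exact pow_le_pow_left₀ (abs_nonneg _) h5 2
    nlinarith [sq_nonneg (D - ∫ y, |Real.log ‖x - y‖| * g y)]
  have cL : Continuous fun x => L x ^ 2 := h.smoothL.continuous.pow 2
  have iL : IntegrableOn (fun x => L x ^ 2) (ball (0 : ℂ) 3) :=
    (cL.continuousOn.integrableOn_compact (isCompact_closedBall (0 : ℂ) 3)).mono_set
      ball_subset_closedBall
  have ic : IntegrableOn (fun _ : ℂ => 2 * D ^ 2) (ball (0 : ℂ) 3) :=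
    integrableOn_const measure_ball_lt_top.ne
  have hRc : IntegrableOn (fun x => 2 * (∫ y, g y) * ∫ y, Real.log ‖x - y‖ ^ 2 * g y) (ball (0 : ℂ) 3) :=
    hR.const_mul _
  have icR : IntegrableOn (fun x => 2 * D ^ 2 + 2 * (∫ y, g y) * ∫ y, Real.log ‖x - y‖ ^ 2 * g y)
      (ball (0 : ℂ) 3) := ic.add hRc
  have h8 := setIntegral_mono_on iL icR measurableSet_ball hpt
  rw [integral_add ic hRc, setIntegral_const, smul_eq_mul, integral_const_mul] at h8
  have h9 : volume.real (ball (0 : ℂ) 3) * (2 * D ^ 2) ≤ 29 * (2 * D ^ 2) :=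
    mul_le_mul_of_nonneg_right vol_ball3 (by positivity)
  have h10 : 2 * (∫ y, g y) * (∫ x in ball (0 : ℂ) 3, ∫ y, Real.log ‖x - y‖ ^ 2 * g y) ≤
      2 * m * (28224 * m) := by
    refine mul_le_mul (by linarith) (hRle.trans (by linarith)) ?_ (by linarith)
    exact setIntegral_nonneg measurableSet_ball fun x _ => integral_nonneg fun y =>
      mul_nonneg (sq_nonneg _) (g0 y)
  nlinarith

end Run7.h341.NLen
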